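import Mathlib

/-!
# Finite-dimensional shift invariant spaces of null sequences decay exponentially
-/

set_option autoImplicit false

open Finset Filter Topology

namespace Pool.Agent.V11135.Klarner

/-- the shift by `k` -/
def shf (u : ℕ → ℝ) (k : ℕ) : ℕ → ℝ := fun n => u (n + k)

/-- the shift as a linear map -/
def S1 : (ℕ → ℝ) →ₗ[ℝ] (ℕ → ℝ) where
  toFun u := fun n => u (n + 1)
  map_add' _ _ := rfl
  map_smul' _ _ := rfl

theorem decay (W : Submodule ℝ (ℕ → ℝ)) [FiniteDimensional ℝ W]
    (hS : ∀ w ∈ W, S1 w ∈ W) (h0 : ∀ w ∈ W, Tendsto w atTop (𝓝 0)) (w : ℕ → ℝ) (hw : w ∈ W) :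
    ∃ (N : ℕ) (C : ℝ), 1 ≤ N ∧ ∀ q : ℕ, |w (N * q)| ≤ C * (1 / 2) ^ q := by
  classical
  let L : W →ₗ[ℝ] W := S1.restrict hS
  have hL : ∀ (k : ℕ) (v : W) (n : ℕ), ((L ^ k) v : ℕ → ℝ) n = (v : ℕ → ℝ) (n + k) := by
    intro k
    induction k with
    | zero => intro v n; simp
    | succ k ih =>
      intro v n
      rw [pow_succ, Module.End.mul_apply, ih]
      show (v : ℕ → ℝ) (n + k + 1) = _
      rfl
  let b := Module.finBasis ℝ W
  set d := Module.finrank ℝ W with hd
  -- the coordinates of the shifts of the basis vectors tend to zero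
  have hcoord : ∀ i j, Tendsto (fun k : ℕ => b.coord j ((L ^ k) (b i))) atTop (𝓝 0) := by
    intro i j
    have hcont : Continuous (b.coord j) := LinearMap.continuous_of_finiteDimensional _
    have h1 : Tendsto (fun k : ℕ => (L ^ k) (b i)) atTop (𝓝 0) := by
      rw [tendsto_subtype_rng, tendsto_pi_nhds]
      intro n
      simp only [hL]
      have h2 := h0 (b i) (b i).2
      have h3 : Tendsto (fun k : ℕ => n + k) atTop atTop :=
        tendsto_atTop_mono (fun k => Nat.le_add_left k n) tendsto_id
      exact h2.comp h3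
    have h2 := (hcont.tendsto 0).comp h1
    rw [map_zero] at h2
    exact h2
  have hev : ∀ᶠ k : ℕ in atTop, ∀ i j, |b.coord j ((L ^ k) (b i))| ≤ 1 / (2 * (d + 1)) := by
    rw [eventually_all]
    intro i
    rw [eventually_all]
    intro j
    have h1 := (hcoord i j).abs
    rw [abs_zero] at h1
    exact (h1.eventually (gt_mem_nhds (show (0 : ℝ) < 1 / (2 * (d + 1)) by positivity))).mono
      fun k hk => hk.le
  obtain ⟨N, hN, hN1⟩ := (hev.and (eventually_ge_atTop 1)).exists
  let m : W → ℝ := fun v => ∑ j, |b.coord j v|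
  have hm : ∀ v, m ((L ^ N) v) ≤ m v / 2 := by
    intro v
    have h1 : ∀ j, |b.coord j ((L ^ N) v)| ≤ m v * (1 / (2 * (d + 1))) := by
      intro j
      have h2 : (L ^ N) v = ∑ i, b.coord i v • (L ^ N) (b i) := by
        conv_lhs => rw [← b.sum_repr v]
        rw [map_sum]
        simp only [map_smul, Module.Basis.coord_apply]
      rw [h2, map_sum]
      refine (abs_sum_le_sum_abs _ _).trans ?_
      simp only [m]
      rw [sum_mul]
      apply sum_le_sum
      intro i _
      rw [map_smul, smul_eq_mul, abs_mul]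
      exact mul_le_mul_of_nonneg_left (hN i j) (abs_nonneg _)
    have hm0 : 0 ≤ m v := sum_nonneg fun _ _ => abs_nonneg _
    calc m ((L ^ N) v) ≤ ∑ _j : Fin d, m v * (1 / (2 * (d + 1))) := sum_le_sum fun j _ => h1 j
      _ = d * (m v * (1 / (2 * (d + 1)))) := by
          rw [sum_const, nsmul_eq_mul, card_univ, Fintype.card_fin]
      _ ≤ m v / 2 := by
          have hd0 : (0 : ℝ) ≤ d := Nat.cast_nonneg d
          rw [mul_one_div, mul_div_assoc', div_le_div_iff₀ (by positivity) (by norm_num)]
          nlinarith
  have hmq : ∀ q v, m ((L ^ (N * q)) v) ≤ m v * (1 / 2) ^ q := by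
    intro q
    induction q with
    | zero => intro v; simp
    | succ q ih =>
      intro v
      rw [Nat.mul_succ, pow_add, Module.End.mul_apply]
      refine (ih _).trans ?_
      rw [pow_succ]
      have := hm v
      have h2 : (0 : ℝ) ≤ (1 / 2) ^ q := by positivity
      calc m ((L ^ N) v) * (1 / 2) ^ q ≤ m v / 2 * (1 / 2) ^ q := mul_le_mul_of_nonneg_right this h2
        _ = _ := by ring
  refine ⟨N, (∑ j, |(b j : ℕ → ℝ) 0|) * m ⟨w, hw⟩, hN1, fun q => ?_⟩
  have h1 : w (N * q) = ((L ^ (N * q)) ⟨w, hw⟩ : ℕ → ℝ) 0 := by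
    rw [hL]; simp
  have h2 : ∀ v : W, |(v : ℕ → ℝ) 0| ≤ (∑ j, |(b j : ℕ → ℝ) 0|) * m v := by
    intro v
    have h3 : (v : ℕ → ℝ) = ∑ i, b.coord i v • (b i : ℕ → ℝ) := by
      have h4 := congrArg (Submodule.subtype W) (b.sum_repr v)
      rw [map_sum] at h4
      simp only [map_smul, Submodule.subtype_apply] at h4
      exact h4.symm
    rw [h3, Finset.sum_apply]
    refine (abs_sum_le_sum_abs _ _).trans ?_
    rw [sum_mul]
    apply sum_le_sum
    intro i _
    rw [Pi.smul_apply, smul_eq_mul, abs_mul, mul_comm]
    apply mul_le_mul_of_nonneg_left _ (abs_nonneg _)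
    exact single_le_sum (f := fun j => |b.coord j v|) (fun _ _ => abs_nonneg _) (mem_univ i)
  rw [h1]
  refine (h2 _).trans ?_
  rw [mul_assoc]
  exact mul_le_mul_of_nonneg_left (hmq q _) (sum_nonneg fun _ _ => abs_nonneg _)

/-- a sequence which satisfies a linear recurrence spans a finite-dimensional space of shifts -/
theorem finite_shifts (u : ℕ → ℝ) (r : ℕ → ℝ) (D : ℕ)
    (h : ∀ n, ∑ l ∈ Finset.range (D + 1), r l * u (n + l) = 0)
    (hr : ∃ l ∈ Finset.range (D + 1), r l ≠ 0) :
    FiniteDimensional ℝ (Submodule.span ℝ (Set.range (shf u))) := by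
  classical
  obtain ⟨E, hE, hmax⟩ := exists_max_image ((Finset.range (D + 1)).filter fun l => r l ≠ 0) id
    (by obtain ⟨l, hl, hl2⟩ := hr; exact ⟨l, mem_filter.2 ⟨hl, hl2⟩⟩)
  rw [mem_filter, Finset.mem_range] at hE
  obtain ⟨hED, hE0⟩ := hE
  set F := Submodule.span ℝ ((Finset.range E).image (shf u) : Set (ℕ → ℝ)) with hF
  have hFf : FiniteDimensional ℝ F := FiniteDimensional.span_finset ℝ _
  have hall : ∀ k, shf u k ∈ F := by
    intro k
    induction k using Nat.strong_induction_on with
    | _ k ih =>
      by_cases hk : k < E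
      · apply Submodule.subset_span
        rw [mem_coe]
        exact mem_image_of_mem _ (Finset.mem_range.2 hk)
      · push Not at hk
        obtain ⟨k', rfl⟩ := Nat.exists_eq_add_of_le' hk
        have h1 : shf u (k' + E) = -(r E)⁻¹ • ∑ l ∈ Finset.range E, r l • shf u (k' + l) := by
          ext n
          have h2 := h (n + k')
          have h3 : ∑ l ∈ Finset.range (D + 1), r l * u (n + k' + l) =
              ∑ l ∈ Finset.range (E + 1), r l * u (n + k' + l) := by
            symm
            apply sum_subset (Finset.range_subset_range.2 (by omega))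
            intro l hl hl'
            rw [Finset.mem_range] at hl hl'
            have : r l = 0 := by
              by_contra hne
              have := hmax l (mem_filter.2 ⟨Finset.mem_range.2 hl, hne⟩)
              simp only [id] at this
              omega
            rw [this, zero_mul]
          rw [h3, sum_range_succ] at h2
          simp only [shf, Pi.smul_apply, Finset.sum_apply, smul_eq_mul]
          have h4 : r E * u (n + k' + E) = -∑ l ∈ Finset.range E, r l * u (n + k' + l) := by
            linarith
          have h5 : u (n + (k' + E)) = (r E)⁻¹ * (r E * u (n + k' + E)) := by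
            rw [inv_mul_cancel_left₀ hE0, add_assoc]
          rw [h5, h4]
          simp only [add_assoc]
          ring
        rw [h1]
        apply Submodule.smul_mem
        apply Submodule.sum_mem
        intro l hl
        rw [Finset.mem_range] at hl
        exact Submodule.smul_mem _ _ (ih (k' + l) (by omega))
  apply Submodule.finiteDimensional_of_le (S₂ := F)
  rw [Submodule.span_le]
  rintro _ ⟨k, rfl⟩
  exact hall k

/-- a null sequence which satisfies a linear recurrence decays exponentially -/
theorem recurrence_decay (u : ℕ → ℝ) (r : ℕ → ℝ) (D : ℕ)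
    (h : ∀ n, ∑ l ∈ Finset.range (D + 1), r l * u (n + l) = 0)
    (hr : ∃ l ∈ Finset.range (D + 1), r l ≠ 0) (hu : Tendsto u atTop (𝓝 0)) :
    ∃ (N : ℕ) (C : ℝ), 1 ≤ N ∧ ∀ q : ℕ, |u (N * q)| ≤ C * (1 / 2) ^ q := by
  have := finite_shifts u r D h hr
  apply decay (Submodule.span ℝ (Set.range (shf u)))
  · intro w hw
    induction hw using Submodule.span_induction with
    | mem x hx =>
      obtain ⟨k, rfl⟩ := hx
      apply Submodule.subset_span
      refine ⟨k + 1, ?_⟩
      ext n
      show u (n + (k + 1)) = u (n + 1 + k)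
      congr 1
      omega
    | zero => rw [map_zero]; exact Submodule.zero_mem _
    | add x y _ _ hx hy => rw [map_add]; exact Submodule.add_mem _ hx hy
    | smul a x _ hx => rw [map_smul]; exact Submodule.smul_mem _ _ hx
  · intro w hw
    induction hw using Submodule.span_induction with
    | mem x hx =>
      obtain ⟨k, rfl⟩ := hx
      exact hu.comp (tendsto_atTop_mono (fun n => Nat.le_add_right n k) tendsto_id)
    | zero => exact tendsto_const_nhds
    | add x y _ _ hx hy =>
      have := hx.add hy
      rw [add_zero] at this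
      exact this
    | smul a x _ hx =>
      have := hx.const_mul a
      rw [mul_zero] at this
      exact this
  · apply Submodule.subset_span
    exact ⟨0, rfl⟩

end Pool.Agent.V11135.Klarner
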