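import Pool.Agent.V11135.Klarner.Glue
import Pool.Agent.V11135.Klarner.Decay

/-!
# The generating function of the animals is not rational
-/

set_option autoImplicit false

open Finset Filter Topology

namespace Pool.Agent.V11135.Klarner

lemma pow_le_tt {x : ℝ} (hx0 : 0 ≤ x) (hx : x < lam) : ∀ᶠ n : ℕ in atTop, x ^ n ≤ tt n := by
  filter_upwards [tendsto_tt.eventually (lt_mem_nhds hx), eventually_ge_atTop 1] with n hn hn1
  have h0 : (0 : ℝ) ≤ tt n := Nat.cast_nonneg _
  calc x ^ n ≤ ((tt n : ℝ) ^ (1 / (n : ℝ))) ^ n := pow_le_pow_left₀ hx0 hn.le n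
    _ = tt n := by
      rw [one_div]
      exact Real.rpow_inv_natCast_pow h0 (by omega)

/-- there is no linear recurrence for the numbers of animals -/
theorem no_recurrence (q : ℕ → ℝ) (D M : ℕ) (hq : q D ≠ 0)
    (h : ∀ n, ∑ l ∈ Finset.range (D + 1), q (D - l) * tt (n + M + l) = 0) : False := by
  set u : ℕ → ℝ := fun n => (tt (n + M) : ℝ) / lam ^ (n + M) with hu
  have hl := lam_pos
  have hu0 : Tendsto u atTop (𝓝 0) :=
    tt_div_tendsto.comp (tendsto_atTop_mono (fun n => Nat.le_add_right n M) tendsto_id)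
  obtain ⟨N, C, hN, hC⟩ := recurrence_decay u (fun l => q (D - l) * lam ^ l) D (fun n => by
    have h1 := h n
    have h2 : ∑ l ∈ Finset.range (D + 1), q (D - l) * lam ^ l * u (n + l) =
        (∑ l ∈ Finset.range (D + 1), q (D - l) * tt (n + M + l)) / lam ^ (n + M) := by
      rw [sum_div]
      apply sum_congr rfl
      intro l _
      simp only [hu]
      rw [show n + l + M = n + M + l by omega, pow_add lam (n + M) l]
      field_simp
    rw [h2, h1, zero_div]) ⟨0, by simp, by simpa using hq⟩ hu0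
  -- a lower bound
  set y : ℝ := (3 / 4 : ℝ) ^ (1 / (N : ℝ)) with hy
  have hN0 : (0 : ℝ) < N := by exact_mod_cast hN
  have hy0 : 0 < y := by rw [hy]; positivity
  have hy1 : y < 1 := Real.rpow_lt_one (by norm_num) (by norm_num) (by positivity)
  have hyN : y ^ N = 3 / 4 := by
    rw [hy, one_div]
    exact Real.rpow_inv_natCast_pow (by norm_num) (by omega)
  have h1 := pow_le_tt (x := lam * y) (by positivity) (by nlinarith)
  have h2 : Tendsto (fun q : ℕ => N * q + M) atTop atTop :=
    tendsto_atTop_mono (fun q => by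
      have : 1 * q ≤ N * q := Nat.mul_le_mul_right q hN
      simp only [id]
      omega) tendsto_id
  have h3 := h2.eventually h1
  have h4 : Tendsto (fun q : ℕ => (3 / 2 : ℝ) ^ q) atTop atTop :=
    tendsto_pow_atTop_atTop_of_one_lt (by norm_num)
  have h5 := h4.eventually (eventually_gt_atTop (C / y ^ M))
  obtain ⟨k, hk1, hk2⟩ := (h3.and h5).exists
  have h6 := hC k
  have h7 : 0 < lam ^ (N * k + M) := by positivity
  have h8 : u (N * k) = (tt (N * k + M) : ℝ) / lam ^ (N * k + M) := rfl
  rw [h8, abs_of_nonneg (by positivity), div_le_iff₀ h7] at h6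
  have h9 : (lam * y) ^ (N * k + M) ≤ C * (1 / 2) ^ k * lam ^ (N * k + M) := hk1.trans h6
  rw [mul_pow, mul_comm (lam ^ (N * k + M))] at h9
  have h10 : y ^ (N * k + M) ≤ C * (1 / 2) ^ k := le_of_mul_le_mul_right h9 h7
  rw [pow_add, pow_mul, hyN] at h10
  rw [div_lt_iff₀ (by positivity)] at hk2
  have h11 : (3 / 2 : ℝ) ^ k * y ^ M ≤ C := by
    have h12 : (0 : ℝ) < 2 ^ k := by positivity
    have h13 : (3 / 4 : ℝ) ^ k * y ^ M * 2 ^ k ≤ C * (1 / 2) ^ k * 2 ^ k :=
      mul_le_mul_of_nonneg_right h10 h12.le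
    have h14 : (1 / 2 : ℝ) ^ k * 2 ^ k = 1 := by rw [← mul_pow]; norm_num
    have h15 : (3 / 4 : ℝ) ^ k * 2 ^ k = (3 / 2) ^ k := by rw [← mul_pow]; norm_num
    calc (3 / 2 : ℝ) ^ k * y ^ M = (3 / 4 : ℝ) ^ k * y ^ M * 2 ^ k := by rw [← h15]; ring
      _ ≤ C * (1 / 2) ^ k * 2 ^ k := h13
      _ = C := by rw [mul_assoc, h14, mul_one]
  linarith

/-- the generating function is not rational over any field of characteristic zero between `ℚ`
and `ℝ`; here over `ℝ` -/
theorem not_rational (P Q : Polynomial ℝ) (hQ : Q ≠ 0)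
    (h : (Q : PowerSeries ℝ) * PowerSeries.mk (fun n => (tt n : ℝ)) = (P : PowerSeries ℝ)) :
    False := by
  apply no_recurrence (fun i => Q.coeff i) Q.natDegree (P.natDegree + 1)
    (by simpa using hQ)
  intro n
  set D := Q.natDegree with hD
  have h1 := congrArg (PowerSeries.coeff (n + (P.natDegree + 1) + D)) h
  rw [PowerSeries.coeff_mul, Polynomial.coeff_coe,
    Polynomial.coeff_eq_zero_of_natDegree_lt (by omega),
    Finset.Nat.sum_antidiagonal_eq_sum_range_succ_mk] at h1
  simp only [Polynomial.coeff_coe, PowerSeries.coeff_mk] at h1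
  rw [← sum_range_reflect]
  rw [← h1]
  have h2 : ∑ x ∈ Finset.range (n + (P.natDegree + 1) + D).succ,
      Q.coeff x * (tt (n + (P.natDegree + 1) + D - x) : ℝ) = ∑ x ∈ Finset.range (D + 1),
      Q.coeff x * (tt (n + (P.natDegree + 1) + D - x) : ℝ) := by
    symm
    apply sum_subset (Finset.range_subset_range.2 (by omega))
    intro l _ hl
    rw [Finset.mem_range] at hl
    rw [Polynomial.coeff_eq_zero_of_natDegree_lt (by omega), zero_mul]
  rw [h2]
  apply sum_congr rfl
  intro l hl
  rw [Finset.mem_range] at hl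
  congr 3
  · omega
  · omega

end Pool.Agent.V11135.Klarner
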