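import Pool.Agent.V11135.Klarner.Conn

/-!
# Connected sets of cells of the square lattice: the recursion and the concatenation
-/

set_option autoImplicit false

open Finset

namespace Pool.Agent.V11135.Klarner

/-- The cells are the points of `ℤ × ℤ`; two cells are adjacent when they share an edge. -/
def grid : SimpleGraph (ℤ × ℤ) where
  Adj c d := |c.1 - d.1| + |c.2 - d.2| = 1
  symm := ⟨fun c d h => by rw [abs_sub_comm d.1 c.1, abs_sub_comm d.2 c.2]; exact h⟩
  loopless := ⟨fun c h => by simp at h⟩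

lemma grid_adj {c d : ℤ × ℤ} : grid.Adj c d ↔ |c.1 - d.1| + |c.2 - d.2| = 1 := Iff.rfl

/-- the four directions -/
def dirs : Finset (ℤ × ℤ) := {(1, 0), (-1, 0), (0, 1), (0, -1)}

lemma adj_dirs {c d : ℤ × ℤ} (h : grid.Adj c d) : d - c ∈ dirs := by
  rw [grid_adj] at h
  obtain ⟨c1, c2⟩ := c
  obtain ⟨d1, d2⟩ := d
  simp only [dirs, mem_insert, mem_singleton, Prod.mk_sub_mk, Prod.mk.injEq]
  simp only at h
  rcases abs_cases (c1 - d1) with h1 | h1 <;> rcases abs_cases (c2 - d2) with h2 | h2 <;> omega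

lemma card_dirs : dirs.card ≤ 4 := by decide

lemma adj_add {c d : ℤ × ℤ} (v : ℤ × ℤ) : grid.Adj (c + v) (d + v) ↔ grid.Adj c d := by
  rw [grid_adj, grid_adj]
  simp

/-- translation of a finite set of cells -/
def tr (v : ℤ × ℤ) (S : Finset (ℤ × ℤ)) : Finset (ℤ × ℤ) := S.map (addRightEmbedding v)

lemma mem_tr {v c : ℤ × ℤ} {S : Finset (ℤ × ℤ)} : c ∈ tr v S ↔ c - v ∈ S := by
  simp only [tr, mem_map, addRightEmbedding_apply]
  constructor
  · rintro ⟨a, ha, rfl⟩; simpa using ha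
  · intro h; exact ⟨c - v, h, by simp⟩

lemma card_tr (v : ℤ × ℤ) (S : Finset (ℤ × ℤ)) : (tr v S).card = S.card := card_map _

lemma conn_tr {v : ℤ × ℤ} {S : Finset (ℤ × ℤ)} : Conn grid (tr v S) ↔ Conn grid S :=
  conn_map _ fun x _ y _ => by
    simp only [addRightEmbedding_apply]
    exact (adj_add v).symm

lemma tr_tr (v w : ℤ × ℤ) (S : Finset (ℤ × ℤ)) : tr v (tr w S) = tr (w + v) S := by
  ext c
  simp only [mem_tr]
  rw [sub_sub, add_comm v w]

lemma tr_zero (S : Finset (ℤ × ℤ)) : tr 0 S = S := by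
  ext c; simp [mem_tr]

lemma tr_union (v : ℤ × ℤ) (S T : Finset (ℤ × ℤ)) : tr v (S ∪ T) = tr v S ∪ tr v T := by
  ext c; simp [mem_tr]

lemma adj_fst {c d : ℤ × ℤ} (h : grid.Adj c d) : d.1 ≤ c.1 + 1 := by
  rw [grid_adj] at h
  rcases abs_cases (c.1 - d.1) with h1 | h1 <;> rcases abs_cases (c.2 - d.2) with h2 | h2 <;> omega

lemma adj_snd {c d : ℤ × ℤ} (h : grid.Adj c d) : d.2 ≤ c.2 + 1 := by
  rw [grid_adj] at h
  rcases abs_cases (c.1 - d.1) with h1 | h1 <;> rcases abs_cases (c.2 - d.2) with h2 | h2 <;> omega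

/-- the box -/
noncomputable def box (n : ℕ) : Finset (ℤ × ℤ) := Finset.Icc (-(n : ℤ)) n ×ˢ Finset.Icc (-(n : ℤ)) n

lemma Conn.subset_box {S : Finset (ℤ × ℤ)} (hS : Conn grid S) (h0 : (0, 0) ∈ S) :
    S ⊆ box S.card := by
  intro c hc
  have h1 := hS.diam Prod.fst (fun _ _ h => adj_fst h) h0 hc
  have h2 := hS.diam Prod.fst (fun _ _ h => adj_fst h) hc h0
  have h3 := hS.diam Prod.snd (fun _ _ h => adj_snd h) h0 hc
  have h4 := hS.diam Prod.snd (fun _ _ h => adj_snd h) hc h0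
  simp only at h1 h2 h3 h4
  simp only [box, mem_product, Finset.mem_Icc]
  omega

open Classical in
/-- the connected sets of `n` cells which contain the origin -/
noncomputable def AA (n : ℕ) : Finset (Finset (ℤ × ℤ)) :=
  (box n).powerset.filter fun S => Conn grid S ∧ S.card = n ∧ (0, 0) ∈ S

lemma mem_AA {n : ℕ} {S : Finset (ℤ × ℤ)} :
    S ∈ AA n ↔ Conn grid S ∧ S.card = n ∧ ((0, 0) : ℤ × ℤ) ∈ S := by
  classical
  unfold AA
  rw [mem_filter, mem_powerset]
  constructor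
  · exact fun h => h.2
  · intro h
    refine ⟨?_, h⟩
    have := h.1.subset_box h.2.2
    rwa [h.2.1] at this

/-- the number of connected sets of `n` cells which contain the origin -/
noncomputable def aa (n : ℕ) : ℕ := (AA n).card

/-- the recursion: cut a connected set into two parts of size at least `(n - 1) / 4` -/
theorem aa_rec {n : ℕ} (hn : 2 ≤ n) :
    aa n ≤ ∑ i ∈ (Finset.range (n + 1)).filter (fun i => n ≤ 4 * i + 1 ∧ 2 * i ≤ n),
      4 * n * (aa i * aa (n - i)) := by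
  classical
  have hsub : AA n ⊆ ((Finset.range (n + 1)).filter (fun i => n ≤ 4 * i + 1 ∧ 2 * i ≤ n)).biUnion
      fun i => (AA i ×ˢ AA (n - i)).biUnion fun p => dirs.biUnion fun d =>
        (p.1 ∪ tr d p.2).image fun u => tr (-u) (p.1 ∪ tr d p.2) := by
    intro S hS
    rw [mem_AA] at hS
    obtain ⟨hSc, hSn, h0⟩ := hS
    obtain ⟨A, hAS, hA, hB, h1, h2⟩ := balanced_cut (G := grid)
      (fun x => dirs.image fun d => x + d) (fun x y h => by
        rw [mem_image]; exact ⟨y - x, adj_dirs h, by simp⟩)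
      (fun x => card_image_le.trans card_dirs) hSc (by omega)
    obtain ⟨a, ha, b, hbS, hbA, hab⟩ := hSc.2 A hAS hA.1 (fun he => by
      rw [he, sdiff_self] at hB; exact absurd rfl hB.1.ne_empty)
    have hbB : b ∈ S \ A := mem_sdiff.2 ⟨hbS, hbA⟩
    have hAn : A.card ≤ n := by rw [← hSn]; exact card_le_card hAS
    have hU : A ∪ S \ A = S := by
      ext z; simp only [mem_union, mem_sdiff]
      constructor
      · rintro (h | h)
        · exact hAS h
        · exact h.1
      · intro h; tauto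
    have hX : tr (-a) A ∪ tr (b - a) (tr (-b) (S \ A)) = tr (-a) S := by
      rw [tr_tr, show -b + (b - a) = -a by abel, ← tr_union, hU]
    rw [mem_biUnion]
    refine ⟨A.card, ?_, ?_⟩
    · rw [mem_filter, Finset.mem_range]; omega
    rw [mem_biUnion]
    refine ⟨(tr (-a) A, tr (-b) (S \ A)), ?_, ?_⟩
    · rw [mem_product, mem_AA, mem_AA, conn_tr, conn_tr, card_tr, card_tr, mem_tr, mem_tr]
      refine ⟨⟨hA, rfl, ?_⟩, hB, ?_, ?_⟩
      · have : (0, 0) - -a = a := by simp
        rw [this]; exact ha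
      · rw [card_sdiff_of_subset hAS, hSn]
      · have : (0, 0) - -b = b := by simp
        rw [this]; exact hbB
    rw [mem_biUnion]
    refine ⟨b - a, adj_dirs hab, ?_⟩
    rw [mem_image]
    refine ⟨-a, ?_, ?_⟩
    · dsimp only
      rw [hX, mem_tr, sub_self]
      exact h0
    · dsimp only
      rw [hX, tr_tr]
      simp [tr_zero]
  unfold aa
  refine (card_le_card hsub).trans (card_biUnion_le.trans (sum_le_sum fun i hi => ?_))
  rw [mem_filter, Finset.mem_range] at hi
  have h1 := card_biUnion_le_card_mul (AA i ×ˢ AA (n - i)) (fun p => dirs.biUnion fun d =>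
        (p.1 ∪ tr d p.2).image fun u => tr (-u) (p.1 ∪ tr d p.2)) (4 * n) (fun p hp => ?_)
  · rw [card_product] at h1
    rw [mul_comm (4 * n)]
    exact h1
  · rw [mem_product, mem_AA, mem_AA] at hp
    have h2 := card_biUnion_le_card_mul dirs (fun d =>
        (p.1 ∪ tr d p.2).image fun u => tr (-u) (p.1 ∪ tr d p.2)) n (fun d _ => ?_)
    · exact h2.trans (Nat.mul_le_mul_right _ card_dirs)
    · refine card_image_le.trans ((card_union_le _ _).trans ?_)
      rw [card_tr, hp.1.2.1, hp.2.2.1]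
      omega

/-- the lexicographic order -/
def lexlt (c d : ℤ × ℤ) : Prop := c.1 < d.1 ∨ (c.1 = d.1 ∧ c.2 < d.2)

def lexle (c d : ℤ × ℤ) : Prop := c = d ∨ lexlt c d

lemma lexle_iff {c d : ℤ × ℤ} : lexle c d ↔ toLex c ≤ toLex d := by
  rw [Prod.Lex.toLex_le_toLex]
  obtain ⟨c1, c2⟩ := c
  obtain ⟨d1, d2⟩ := d
  simp only [lexle, lexlt, Prod.mk.injEq]
  omega

lemma exists_lexmin {S : Finset (ℤ × ℤ)} (hS : S.Nonempty) : ∃ x ∈ S, ∀ y ∈ S, lexle x y := by
  obtain ⟨x, hx, h⟩ := exists_min_image S toLex hS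
  exact ⟨x, hx, fun y hy => lexle_iff.2 (h y hy)⟩

lemma exists_lexmax {S : Finset (ℤ × ℤ)} (hS : S.Nonempty) : ∃ x ∈ S, ∀ y ∈ S, lexle y x := by
  obtain ⟨x, hx, h⟩ := exists_max_image S toLex hS
  exact ⟨x, hx, fun y hy => lexle_iff.2 (h y hy)⟩

open Classical in
/-- the connected sets of `n` cells whose lexicographically least cell is the origin -/
noncomputable def NN (n : ℕ) : Finset (Finset (ℤ × ℤ)) :=
  (AA n).filter fun S => ∀ c ∈ S, lexle (0, 0) c

lemma mem_NN {n : ℕ} {S : Finset (ℤ × ℤ)} : S ∈ NN n ↔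
    Conn grid S ∧ S.card = n ∧ ((0, 0) : ℤ × ℤ) ∈ S ∧ ∀ c ∈ S, lexle (0, 0) c := by
  classical
  unfold NN
  rw [mem_filter, mem_AA]
  tauto

noncomputable def tt (n : ℕ) : ℕ := (NN n).card

lemma tt_le_aa (n : ℕ) : tt n ≤ aa n := by
  classical
  exact card_le_card (filter_subset _ _)

lemma aa_le (n : ℕ) : aa n ≤ n * tt n := by
  classical
  have hsub : AA n ⊆ (NN n).biUnion fun S => S.image fun u => tr (-u) S := by
    intro S hS
    rw [mem_AA] at hS
    obtain ⟨hSc, hSn, h0⟩ := hS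
    obtain ⟨x, hx, hmin⟩ := exists_lexmin ⟨_, h0⟩
    rw [mem_biUnion]
    refine ⟨tr (-x) S, ?_, ?_⟩
    · rw [mem_NN, conn_tr, card_tr, mem_tr]
      refine ⟨hSc, hSn, by rw [show ((0, 0) : ℤ × ℤ) - -x = x by simp]; exact hx, fun c hc => ?_⟩
      rw [mem_tr] at hc
      have := hmin _ hc
      obtain ⟨c1, c2⟩ := c
      obtain ⟨x1, x2⟩ := x
      simp only [lexle, lexlt, Prod.mk.injEq, Prod.neg_mk, Prod.mk_sub_mk] at this ⊢
      omega
    · rw [mem_image]
      refine ⟨-x, ?_, ?_⟩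
      · rw [mem_tr, sub_self]; exact h0
      · rw [tr_tr]; simp [tr_zero]
  unfold aa tt
  refine (card_le_card hsub).trans ?_
  rw [mul_comm]
  apply card_biUnion_le_card_mul
  intro S hS
  rw [mem_NN] at hS
  exact card_image_le.trans hS.2.1.le

/-- concatenation -/
theorem tt_mul {m n : ℕ} : tt m * tt n ≤ tt (m + n) := by
  classical
  -- the position of the second set
  have hv : ∀ P ∈ NN m, ∃ v : ℤ × ℤ, (v.1, v.2 - 1) ∈ P ∧ ∀ y ∈ P, lexlt y v := by
    intro P hP
    rw [mem_NN] at hP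
    obtain ⟨x, hx, hmax⟩ := exists_lexmax ⟨_, hP.2.2.1⟩
    refine ⟨(x.1, x.2 + 1), by simpa using hx, fun y hy => ?_⟩
    have := hmax y hy
    obtain ⟨x1, x2⟩ := x
    obtain ⟨y1, y2⟩ := y
    simp only [lexle, lexlt, Prod.mk.injEq] at this ⊢
    omega
  choose! v hv1 hv2 using hv
  have hQ : ∀ P ∈ NN m, ∀ Q ∈ NN n, ∀ x ∈ P, ∀ y ∈ tr (v P) Q, lexlt x y := by
    intro P hP Q hQ x hx y hy
    rw [mem_tr] at hy
    rw [mem_NN] at hQ
    have h1 := hv2 P hP x hx
    have h2 := hQ.2.2.2 _ hy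
    obtain ⟨x1, x2⟩ := x
    obtain ⟨y1, y2⟩ := y
    simp only [lexle, lexlt, Prod.mk.injEq, Prod.fst_sub, Prod.snd_sub] at h1 h2 ⊢
    have h3 : (0 : ℤ × ℤ) = (0, 0) := rfl
    rcases h2 with h2 | h2
    · rw [Prod.ext_iff] at h2
      simp only [Prod.fst_sub, Prod.snd_sub] at h2
      omega
    · omega
  unfold tt
  rw [← card_product]
  apply card_le_card_of_injOn (fun p => p.1 ∪ tr (v p.1) p.2)
  · rintro ⟨P, Q⟩ hp
    rw [mem_coe, mem_product] at hp
    obtain ⟨hP, hQ'⟩ := hp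
    simp only at hP hQ'
    have hlt := hQ P hP Q hQ'
    have hv1' := hv1 P hP
    have hv2' := hv2 P hP
    rw [mem_NN] at hP hQ'
    rw [mem_coe, mem_NN]
    dsimp only
    refine ⟨?_, ?_, ?_, ?_⟩
    · refine hP.1.union (conn_tr.2 hQ'.1) ⟨_, hv1', v P, ?_, Or.inr ?_⟩
      · rw [mem_tr, sub_self]; exact hQ'.2.2.1
      · rw [grid_adj]; simp
    · rw [card_union_of_disjoint, card_tr, hP.2.1, hQ'.2.1]
      rw [disjoint_left]
      intro x hx hy
      have := hlt x hx x hy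
      simp only [lexlt] at this
      omega
    · exact mem_union_left _ hP.2.2.1
    · intro c hc
      rcases mem_union.1 hc with hc | hc
      · exact hP.2.2.2 c hc
      · exact Or.inr (hlt _ hP.2.2.1 c hc)
  · rintro ⟨P, Q⟩ hp ⟨P', Q'⟩ hp' heq
    rw [mem_coe, mem_product] at hp hp'
    obtain ⟨hP, hQ1⟩ := hp
    obtain ⟨hP', hQ1'⟩ := hp'
    simp only at hP hQ1 hP' hQ1' heq
    have hlt := hQ P hP Q hQ1
    have hlt' := hQ P' hP' Q' hQ1'
    have hcard : P.card = P'.card := by rw [(mem_NN.1 hP).2.1, (mem_NN.1 hP').2.1]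
    have hPP : P = P' := by
      by_contra hne
      have h1 : ¬ P ⊆ P' := fun h => hne (eq_of_subset_of_card_le h hcard.ge)
      have h2 : ¬ P' ⊆ P := fun h => hne (eq_of_subset_of_card_le h hcard.le).symm
      rw [not_subset] at h1 h2
      obtain ⟨x, hx, hx'⟩ := h1
      obtain ⟨y, hy, hy'⟩ := h2
      have hx2 : x ∈ tr (v P') Q' := by
        have : x ∈ P' ∪ tr (v P') Q' := by rw [← heq]; exact mem_union_left _ hx
        exact (mem_union.1 this).resolve_left hx'
      have hy2 : y ∈ tr (v P) Q := by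
        have : y ∈ P ∪ tr (v P) Q := by rw [heq]; exact mem_union_left _ hy
        exact (mem_union.1 this).resolve_left hy'
      have h3 := hlt x hx y hy2
      have h4 := hlt' y hy x hx2
      simp only [lexlt] at h3 h4
      omega
    subst hPP
    have hd : ∀ R : Finset (ℤ × ℤ), (∀ x ∈ P, ∀ y ∈ tr (v P) R, lexlt x y) →
        (P ∪ tr (v P) R) \ P = tr (v P) R := by
      intro R hR
      rw [union_sdiff_left, Finset.sdiff_eq_self_iff_disjoint, disjoint_left]
      intro x hx hy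
      have := hR x hy x hx
      simp only [lexlt] at this
      omega
    have h5 : tr (v P) Q = tr (v P) Q' := by rw [← hd Q hlt, ← hd Q' hlt', heq]
    have h6 : Q = Q' := map_injective _ h5
    rw [h6]

lemma tt_one : 1 ≤ tt 1 := by
  classical
  apply card_pos.2
  refine ⟨{(0, 0)}, ?_⟩
  rw [mem_NN]
  refine ⟨conn_singleton _ _, by simp, by simp, ?_⟩
  intro c hc
  rw [mem_singleton] at hc
  exact Or.inl hc.symm

lemma tt_pos {n : ℕ} (hn : 1 ≤ n) : 1 ≤ tt n := by
  induction n, hn using Nat.le_induction with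
  | base => exact tt_one
  | succ n hn ih =>
    calc 1 ≤ tt n * tt 1 := Nat.one_le_iff_ne_zero.2 (by have := tt_one; positivity)
      _ ≤ tt (n + 1) := tt_mul

end Pool.Agent.V11135.Klarner
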