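import Pool.Agent.V11135.Klarner.Limit

/-!
# The number of animals is a primitive recursive function
-/

set_option autoImplicit false

open Finset Filter Topology

namespace Pool.Agent.V11135.Klarner

lemma all_lt {α : Type} [Primcodable α] {f : α → ℕ} (hf : Primrec f) {p : α → ℕ → Prop}
    (hp : PrimrecRel p) : PrimrecPred fun a => ∀ k < f a, p a k := by
  have h : PrimrecRel fun (L : List ℕ) (a : α) => ∀ k ∈ L, p a k :=
    PrimrecRel.forall_mem_list (R := fun k a => p a k) (hp.comp Primrec.snd Primrec.fst)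
  exact (h.comp (Primrec.list_range.comp hf) Primrec.id).of_eq (by simp)

lemma ex_lt {α : Type} [Primcodable α] {f : α → ℕ} (hf : Primrec f) {p : α → ℕ → Prop}
    (hp : PrimrecRel p) : PrimrecPred fun a => ∃ k < f a, p a k := by
  have h : PrimrecRel fun (L : List ℕ) (a : α) => ∃ k ∈ L, p a k :=
    PrimrecRel.exists_mem_list (R := fun k a => p a k) (hp.comp Primrec.snd Primrec.fst)
  exact (h.comp (Primrec.list_range.comp hf) Primrec.id).of_eq (by simp)

lemma prim_pow : Primrec₂ (fun a b : ℕ => a ^ b) := Primrec₂.unpaired'.1 Nat.Primrec.pow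

/-- the binary digit `k` of `x` is `1` -/
def bit (x k : ℕ) : Prop := x / 2 ^ k % 2 = 1

instance : DecidableRel bit := fun _ _ => inferInstanceAs (Decidable (_ = _))

/-- the set coded by `x` -/
def cs (x : ℕ) : Finset ℕ := x.bitIndices.toFinset

lemma mem_cs {x k : ℕ} : k ∈ cs x ↔ bit x k := by
  unfold cs bit
  rw [List.mem_toFinset, Nat.mem_bitIndices, Nat.testBit_eq_decide_div_mod_eq]
  simp

lemma bit_lt {x k : ℕ} (h : bit x k) : k < x := by
  have h1 : k ∈ x.bitIndices := by
    have := mem_cs.2 h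
    unfold cs at this
    exact List.mem_toFinset.1 this
  exact (Nat.lt_two_pow_self).trans_le (Nat.two_pow_le_of_mem_bitIndices h1)

lemma sum_cs (x : ℕ) : ∑ i ∈ cs x, 2 ^ i = x := sum_toFinset_bitIndices_two_pow x

lemma cs_sum (S : Finset ℕ) : cs (∑ i ∈ S, 2 ^ i) = S := toFinset_bitIndices_sum_two_pow S

lemma cs_inj {x y : ℕ} (h : cs x = cs y) : x = y := by rw [← sum_cs x, ← sum_cs y, h]

lemma prim_bit : PrimrecRel bit :=
  Primrec.eq.comp (Primrec.nat_mod.comp (Primrec.nat_div.comp Primrec.fst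
    (prim_pow.comp (Primrec.const 2) Primrec.snd)) (Primrec.const 2)) (Primrec.const 1)

/-- adjacency of the cells with nonnegative coordinates coded by natural numbers -/
def nAdj (k l : ℕ) : Prop :=
  (k.unpair.1 - l.unpair.1) + (l.unpair.1 - k.unpair.1) +
    ((k.unpair.2 - l.unpair.2) + (l.unpair.2 - k.unpair.2)) = 1

instance : DecidableRel nAdj := fun _ _ => inferInstanceAs (Decidable (_ = _))

lemma prim_nAdj : PrimrecRel nAdj := by
  have a1 : Primrec fun q : ℕ × ℕ => q.1.unpair.1 :=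
    Primrec.fst.comp (Primrec.unpair.comp Primrec.fst)
  have a2 : Primrec fun q : ℕ × ℕ => q.1.unpair.2 :=
    Primrec.snd.comp (Primrec.unpair.comp Primrec.fst)
  have b1 : Primrec fun q : ℕ × ℕ => q.2.unpair.1 :=
    Primrec.fst.comp (Primrec.unpair.comp Primrec.snd)
  have b2 : Primrec fun q : ℕ × ℕ => q.2.unpair.2 :=
    Primrec.snd.comp (Primrec.unpair.comp Primrec.snd)
  exact Primrec.eq.comp (Primrec.nat_add.comp
    (Primrec.nat_add.comp (Primrec.nat_sub.comp a1 b1) (Primrec.nat_sub.comp b1 a1))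
    (Primrec.nat_add.comp (Primrec.nat_sub.comp a2 b2) (Primrec.nat_sub.comp b2 a2)))
    (Primrec.const 1)

/-- the graph on the codes of cells -/
def nG : SimpleGraph ℕ where
  Adj k l := nAdj k l
  symm := ⟨fun k l h => by unfold nAdj at *; omega⟩
  loopless := ⟨fun k h => by unfold nAdj at h; omega⟩

/-- connectedness as a condition with bounded quantifiers -/
def connB (x : ℕ) : Prop :=
  0 < x ∧ ∀ y < x + 1, (y = 0 ∨ y = x ∨ (∃ k < y, bit y k ∧ ¬ bit x k) ∨
    ∃ k < y, bit y k ∧ ∃ l < x, bit x l ∧ ¬ bit y l ∧ nAdj k l)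

lemma connB_iff (x : ℕ) : connB x ↔ Conn nG (cs x) := by
  constructor
  · rintro ⟨hx, h⟩
    refine ⟨?_, fun T hT hne hT2 => ?_⟩
    · rw [nonempty_iff_ne_empty]
      intro he
      have := sum_cs x
      rw [he, sum_empty] at this
      omega
    · have hy : ∑ i ∈ T, 2 ^ i < x + 1 := by
        have : ∑ i ∈ T, 2 ^ i ≤ ∑ i ∈ cs x, 2 ^ i := sum_le_sum_of_subset hT
        rw [sum_cs] at this
        omega
      rcases h _ hy with h1 | h1 | ⟨k, -, h1, h2⟩ | ⟨k, -, h1, l, -, h2, h3, h4⟩
      · exfalso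
        obtain ⟨i, hi⟩ := hne
        have h2 := Finset.single_le_sum (f := fun i => 2 ^ i) (fun _ _ => Nat.zero_le _) hi
        have h3 : 0 < 2 ^ i := by positivity
        omega
      · exfalso
        apply hT2
        rw [← cs_sum T, h1]
      · exfalso
        rw [← mem_cs, cs_sum] at h1
        exact h2 (mem_cs.1 (hT h1))
      · rw [← mem_cs, cs_sum] at h1 h3
        exact ⟨k, h1, l, mem_cs.2 h2, h3, h4⟩
  · rintro ⟨hne, h⟩
    refine ⟨?_, fun y _ => ?_⟩
    · obtain ⟨i, hi⟩ := hne
      have := bit_lt (mem_cs.1 hi)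
      omega
    · by_cases h0 : y = 0
      · exact Or.inl h0
      by_cases h1 : y = x
      · exact Or.inr (Or.inl h1)
      by_cases h2 : cs y ⊆ cs x
      · right; right; right
        obtain ⟨a, ha, b, hb, hbT, hab⟩ := h (cs y) h2 (by
          rw [nonempty_iff_ne_empty]
          intro he
          have := sum_cs y
          rw [he, sum_empty] at this
          omega) (fun he => h1 (cs_inj he))
        rw [mem_cs] at ha hb hbT
        exact ⟨a, bit_lt ha, ha, b, bit_lt hb, hb, hbT, hab⟩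
      · right; right; left
        rw [not_subset] at h2
        obtain ⟨k, hk, hk2⟩ := h2
        rw [mem_cs] at hk hk2
        exact ⟨k, bit_lt hk, hk, hk2⟩

lemma prim_connB : PrimrecPred connB := by
  have h1 : PrimrecPred fun q : ℕ × ℕ => ∃ k < q.2, bit q.2 k ∧ ¬ bit q.1 k :=
    ex_lt Primrec.snd (p := fun q k => bit q.2 k ∧ ¬ bit q.1 k)
      ((prim_bit.comp (Primrec.snd.comp Primrec.fst) Primrec.snd).and
        (prim_bit.comp (Primrec.fst.comp Primrec.fst) Primrec.snd).not)
  have h2 : PrimrecPred fun r : (ℕ × ℕ) × ℕ => ∃ l < r.1.1,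
      bit r.1.1 l ∧ ¬ bit r.1.2 l ∧ nAdj r.2 l :=
    ex_lt (Primrec.fst.comp Primrec.fst) (p := fun r l => bit r.1.1 l ∧ ¬ bit r.1.2 l ∧ nAdj r.2 l)
      ((prim_bit.comp (Primrec.fst.comp (Primrec.fst.comp Primrec.fst)) Primrec.snd).and
        ((prim_bit.comp (Primrec.snd.comp (Primrec.fst.comp Primrec.fst)) Primrec.snd).not.and
          (prim_nAdj.comp (Primrec.snd.comp Primrec.fst) Primrec.snd)))
  have h3 : PrimrecPred fun q : ℕ × ℕ => ∃ k < q.2, bit q.2 k ∧
      ∃ l < q.1, bit q.1 l ∧ ¬ bit q.2 l ∧ nAdj k l :=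
    ex_lt Primrec.snd (p := fun q k => bit q.2 k ∧ ∃ l < q.1, bit q.1 l ∧ ¬ bit q.2 l ∧ nAdj k l)
      (PrimrecPred.and (prim_bit.comp (Primrec.snd.comp Primrec.fst) Primrec.snd) h2)
  have h4 : PrimrecPred fun x : ℕ => ∀ y < x + 1, (y = 0 ∨ y = x ∨
      (∃ k < y, bit y k ∧ ¬ bit x k) ∨
      ∃ k < y, bit y k ∧ ∃ l < x, bit x l ∧ ¬ bit y l ∧ nAdj k l) :=
    all_lt Primrec.succ (p := fun x y => (y = 0 ∨ y = x ∨ (∃ k < y, bit y k ∧ ¬ bit x k) ∨
      ∃ k < y, bit y k ∧ ∃ l < x, bit x l ∧ ¬ bit y l ∧ nAdj k l))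
      ((Primrec.eq.comp Primrec.snd (Primrec.const 0)).or
        ((Primrec.eq.comp Primrec.snd Primrec.fst).or (h1.or h3)))
  exact (Primrec.nat_lt.comp (Primrec.const 0) Primrec.id).and h4

/-- the number of binary digits `1` -/
def cnt (x : ℕ) : ℕ := ((List.range x).filter fun k => bit x k).length

lemma cnt_eq (x : ℕ) : cnt x = (cs x).card := by
  unfold cnt
  rw [← List.toFinset_card_of_nodup (List.nodup_range.filter _)]
  congr 1
  ext k
  rw [List.mem_toFinset, List.mem_filter, List.mem_range, mem_cs, decide_eq_true_iff]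
  exact ⟨fun h => h.2, fun h => ⟨bit_lt h, h⟩⟩

lemma prim_cnt : Primrec cnt := by
  have h : PrimrecRel fun k x : ℕ => bit x k := prim_bit.comp Primrec.snd Primrec.fst
  exact Primrec.list_length.comp (h.listFilter.comp Primrec.list_range Primrec.id)

/-- `x` codes a connected set of `n` cells containing `(n, n)` -/
def RR (x n : ℕ) : Prop := connB x ∧ cnt x = n ∧ bit x (Nat.pair n n)

lemma prim_RR : PrimrecRel RR :=
  (prim_connB.comp Primrec.fst).and ((Primrec.eq.comp (prim_cnt.comp Primrec.fst) Primrec.snd).and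
    (prim_bit.comp Primrec.fst (Primrec₂.natPair.comp Primrec.snd Primrec.snd)))

open Classical in
/-- the number of animals, computed -/
noncomputable def ca (n : ℕ) : ℕ :=
  ((List.range (2 ^ ((2 * n + 1) ^ 2))).filter fun x => RR x n).length

lemma prim_ca : Primrec ca := by
  classical
  have h1 : Primrec fun n : ℕ => List.range (2 ^ ((2 * n + 1) ^ 2)) :=
    Primrec.list_range.comp (prim_pow.comp (Primrec.const 2) (prim_pow.comp
      (Primrec.succ.comp (Primrec.nat_mul.comp (Primrec.const 2) Primrec.id)) (Primrec.const 2)))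
  exact Primrec.list_length.comp (prim_RR.listFilter.comp h1 Primrec.id)

/-- the cell coded by `k`, moved by `(-n, -n)` -/
def phi (n : ℕ) : ℕ ↪ ℤ × ℤ where
  toFun k := ((k.unpair.1 : ℤ) - n, (k.unpair.2 : ℤ) - n)
  inj' := by
    intro k l h
    simp only [Prod.mk.injEq] at h
    have h1 : k.unpair.1 = l.unpair.1 := by omega
    have h2 : k.unpair.2 = l.unpair.2 := by omega
    rw [← Nat.pair_unpair k, ← Nat.pair_unpair l, h1, h2]

lemma phi_apply (n k : ℕ) : phi n k = ((k.unpair.1 : ℤ) - n, (k.unpair.2 : ℤ) - n) := rfl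

lemma phi_adj (n k l : ℕ) : nG.Adj k l ↔ grid.Adj (phi n k) (phi n l) := by
  show nAdj k l ↔ _
  rw [grid_adj, phi_apply, phi_apply]
  unfold nAdj
  dsimp only
  have e1 : (k.unpair.1 : ℤ) - n - (l.unpair.1 - n) = (k.unpair.1 : ℤ) - l.unpair.1 := by ring
  have e2 : (k.unpair.2 : ℤ) - n - (l.unpair.2 - n) = (k.unpair.2 : ℤ) - l.unpair.2 := by ring
  rw [e1, e2]
  rcases abs_cases ((k.unpair.1 : ℤ) - l.unpair.1) with h1 | h1 <;>
    rcases abs_cases ((k.unpair.2 : ℤ) - l.unpair.2) with h2 | h2 <;> omega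

theorem ca_eq (n : ℕ) : ca n = aa n := by
  classical
  unfold ca aa
  rw [← List.toFinset_card_of_nodup (List.nodup_range.filter _)]
  have hconn : ∀ x, Conn grid ((cs x).map (phi n)) ↔ connB x := fun x => by
    rw [connB_iff]
    exact conn_map (phi n) fun k _ l _ => phi_adj n k l
  have hphi0 : phi n (Nat.pair n n) = (0, 0) := by
    rw [phi_apply]; simp
  apply card_bij (fun x _ => (cs x).map (phi n))
  · intro x hx
    rw [List.mem_toFinset, List.mem_filter, decide_eq_true_iff] at hx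
    obtain ⟨-, h1, h2, h3⟩ := hx
    rw [mem_AA, hconn, card_map, ← cnt_eq]
    refine ⟨h1, h2, ?_⟩
    rw [← hphi0]
    exact mem_map_of_mem _ (mem_cs.2 h3)
  · intro x _ y _ h
    exact cs_inj (map_injective _ h)
  · intro S hS
    have hS' := hS
    rw [mem_AA] at hS
    obtain ⟨h1, h2, h3⟩ := hS
    have hbox := h1.subset_box h3
    rw [h2] at hbox
    set T : Finset ℕ := S.image fun c : ℤ × ℤ => Nat.pair (c.1 + n).toNat (c.2 + n).toNat with hT
    have hTS : T.map (phi n) = S := by
      have hinv : ∀ c ∈ S, phi n (Nat.pair (c.1 + n).toNat (c.2 + n).toNat) = c := by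
        intro c hc
        have := hbox hc
        simp only [box, mem_product, Finset.mem_Icc] at this
        rw [phi_apply, Nat.unpair_pair]
        dsimp only
        apply Prod.ext
        · dsimp only; omega
        · dsimp only; omega
      ext c
      rw [Finset.mem_map, hT]
      constructor
      · rintro ⟨k, hk, rfl⟩
        obtain ⟨d, hd, rfl⟩ := mem_image.1 hk
        rw [hinv d hd]; exact hd
      · intro hc
        exact ⟨_, mem_image_of_mem _ hc, hinv c hc⟩
    have hTK : T ⊆ Finset.range ((2 * n + 1) ^ 2) := by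
      intro k hk
      rw [hT] at hk
      obtain ⟨c, hc, rfl⟩ := mem_image.1 hk
      have := hbox hc
      simp only [box, mem_product, Finset.mem_Icc] at this
      rw [Finset.mem_range]
      refine (Nat.pair_lt_max_add_one_sq _ _).trans_le (Nat.pow_le_pow_left ?_ 2)
      have : max (c.1 + n).toNat (c.2 + n).toNat ≤ 2 * n := by
        rw [max_le_iff]; omega
      omega
    refine ⟨∑ i ∈ T, 2 ^ i, ?_, ?_⟩
    · rw [List.mem_toFinset, List.mem_filter, List.mem_range, decide_eq_true_iff]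
      refine ⟨?_, ?_, ?_, ?_⟩
      · exact Nat.geomSum_lt le_rfl fun k hk => Finset.mem_range.1 (hTK hk)
      · rw [← hconn, cs_sum, hTS]; exact h1
      · rw [cnt_eq, cs_sum, ← h2, ← hTS, card_map]
      · rw [← mem_cs, cs_sum]
        have : phi n (Nat.pair n n) ∈ T.map (phi n) := by rw [hTS, hphi0]; exact h3
        rwa [Finset.mem_map'] at this
    · rw [cs_sum, hTS]

end Pool.Agent.V11135.Klarner
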