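import Mathlib

/-!
# Connected finite sets of vertices and balanced cuts
-/

set_option autoImplicit false

open Finset

namespace Pool.Agent.V11135.Klarner

variable {V : Type} [DecidableEq V]

/-- `S` is nonempty and every proper nonempty subset of `S` sends an edge to the rest of `S`. -/
def Conn (G : SimpleGraph V) (S : Finset V) : Prop :=
  S.Nonempty ∧ ∀ T ⊆ S, T.Nonempty → T ≠ S → ∃ a ∈ T, ∃ b ∈ S, b ∉ T ∧ G.Adj a b

omit [DecidableEq V] in
lemma conn_iff (G : SimpleGraph V) (S : Finset V) :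
    Conn G S ↔ (G.induce (S : Set V)).Connected := by
  classical
  constructor
  · rintro ⟨⟨s, hs⟩, h⟩
    have hne : Nonempty (S : Set V) := ⟨⟨s, hs⟩⟩
    refine ⟨fun u v => ?_⟩
    by_contra huv
    let T : Finset V := S.filter fun x => ∃ hx : x ∈ S, (G.induce (S : Set V)).Reachable u ⟨x, hx⟩
    obtain ⟨a, haT, b, hbS, hbT, hab⟩ := h T (filter_subset _ _)
      ⟨u, by
        rw [mem_filter]
        exact ⟨u.2, u.2, SimpleGraph.Reachable.refl _⟩⟩
      (fun he => huv (by
        have : (v : V) ∈ T := by rw [he]; exact v.2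
        rw [mem_filter] at this
        exact this.2.2))
    rw [mem_filter] at haT
    obtain ⟨haS, haS', hr⟩ := haT
    apply hbT
    rw [mem_filter]
    refine ⟨hbS, hbS, hr.trans (SimpleGraph.Adj.reachable ?_)⟩
    exact hab
  · intro h
    obtain ⟨⟨s, hs⟩⟩ := h.nonempty
    refine ⟨⟨s, hs⟩, fun T hTS hT hne => ?_⟩
    obtain ⟨x, hx⟩ := hT
    obtain ⟨y, hyS, hyT⟩ : ∃ y ∈ S, y ∉ T := by
      by_contra hcon
      push Not at hcon
      exact hne (Subset.antisymm hTS hcon)
    obtain ⟨p⟩ := h.preconnected ⟨x, hTS hx⟩ ⟨y, hyS⟩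
    obtain ⟨d, -, h1, h2⟩ := p.exists_boundary_dart {z | (z : V) ∈ T} hx hyT
    exact ⟨d.fst, h1, d.snd, d.snd.2, h2, d.adj⟩

omit [DecidableEq V] in
lemma conn_singleton (G : SimpleGraph V) (x : V) : Conn G {x} := by
  refine ⟨⟨x, mem_singleton_self x⟩, fun T hT hne hT2 => ?_⟩
  exfalso
  apply hT2
  rcases subset_singleton_iff.1 hT with h | h
  · exact absurd h hne.ne_empty
  · exact h

/-- two connected sets which meet or are joined by an edge have a connected union -/
lemma Conn.union {G : SimpleGraph V} {A B : Finset V} (hA : Conn G A) (hB : Conn G B)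
    (h : ∃ a ∈ A, ∃ b ∈ B, a = b ∨ G.Adj a b) : Conn G (A ∪ B) := by
  refine ⟨hA.1.mono subset_union_left, fun T hT hne hT2 => ?_⟩
  by_contra hcon
  push Not at hcon
  have hcut : ∀ C ⊆ A ∪ B, Conn G C → (∃ x ∈ C, x ∈ T) → C ⊆ T := by
    intro C hC hCc ⟨x, hxC, hxT⟩
    by_contra hCT
    obtain ⟨a, ha, b, hb, hbT, hab⟩ := hCc.2 (C ∩ T) inter_subset_left ⟨x, mem_inter.2 ⟨hxC, hxT⟩⟩
      (fun he => hCT (by rw [← he]; exact inter_subset_right))
    rw [mem_inter] at ha hbT
    exact hcon a ha.2 b (hC hb) (fun hb' => hbT ⟨hb, hb'⟩) hab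
  obtain ⟨a, ha, b, hb, hab⟩ := h
  have key : A ⊆ T ↔ B ⊆ T := by
    constructor
    · intro hAT
      apply hcut B subset_union_right hB
      refine ⟨b, hb, ?_⟩
      rcases hab with rfl | hab
      · exact hAT ha
      · by_contra hbT
        exact hcon a (hAT ha) b (mem_union_right _ hb) hbT hab
    · intro hBT
      apply hcut A subset_union_left hA
      refine ⟨a, ha, ?_⟩
      rcases hab with rfl | hab
      · exact hBT hb
      · by_contra haT
        exact hcon b (hBT hb) a (mem_union_left _ ha) haT hab.symm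
  obtain ⟨x, hx⟩ := hne
  apply hT2
  apply Subset.antisymm hT
  rcases mem_union.1 (hT hx) with h1 | h1
  · have h2 := hcut A subset_union_left hA ⟨x, h1, hx⟩
    exact union_subset h2 (key.1 h2)
  · have h2 := hcut B subset_union_right hB ⟨x, h1, hx⟩
    exact union_subset (key.2 h2) h2

/-- the component of `x` in `S \ {b}` -/
lemma exists_comp {G : SimpleGraph V} {S : Finset V} (hS : Conn G S) {b : V} (hb : b ∈ S)
    {x : V} (hx : x ∈ S) (hxb : x ≠ b) :
    ∃ T ⊆ S, x ∈ T ∧ b ∉ T ∧ Conn G T ∧ Conn G (S \ T) ∧ (∃ c ∈ T, G.Adj b c) ∧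
      ∀ U ⊆ S, b ∉ U → Conn G U → (∃ y ∈ U, y ∈ T) → U ⊆ T := by
  classical
  let F : Finset (Finset V) := S.powerset.filter fun T => x ∈ T ∧ b ∉ T ∧ Conn G T
  have hF : F.Nonempty := by
    refine ⟨{x}, ?_⟩
    simp only [F, mem_filter, mem_powerset, singleton_subset_iff, mem_singleton]
    exact ⟨hx, trivial, fun h => hxb h.symm, conn_singleton G x⟩
  obtain ⟨T, hTF, hmax⟩ := exists_max_image F card hF
  simp only [F, mem_filter, mem_powerset] at hTF hmax
  obtain ⟨hTS, hxT, hbT, hTc⟩ := hTF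
  have hU : ∀ U ⊆ S, b ∉ U → Conn G U → (∃ z ∈ T, ∃ y ∈ U, z = y ∨ G.Adj z y) → U ⊆ T := by
    intro U hUS hbU hUc hzy
    have h1 := hmax (T ∪ U) ⟨union_subset hTS hUS, mem_union_left _ hxT, by
      rw [mem_union]; tauto, hTc.union hUc hzy⟩
    have h2 : T = T ∪ U := eq_of_subset_of_card_le subset_union_left h1
    rw [h2]
    exact subset_union_right
  -- vertices outside of `T` different from `b` are not adjacent to `T`
  have hnadj : ∀ y ∈ S, y ∉ T → y ≠ b → ∀ z ∈ T, ¬ G.Adj z y := by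
    intro y hy hyT hyb z hz hzy
    apply hyT
    apply hU {y} (singleton_subset_iff.2 hy) (by rw [mem_singleton]; exact fun h => hyb h.symm)
      (conn_singleton G y) ⟨z, hz, y, mem_singleton_self y, Or.inr hzy⟩
    exact mem_singleton_self y
  refine ⟨T, hTS, hxT, hbT, hTc, ?_, ?_, ?_⟩
  · refine ⟨⟨b, mem_sdiff.2 ⟨hb, hbT⟩⟩, fun U hUS hne hU2 => ?_⟩
    -- first for sets not containing `b`
    have main : ∀ W ⊆ S \ T, W.Nonempty → b ∉ W →
        ∃ a ∈ W, ∃ c ∈ S \ T, c ∉ W ∧ G.Adj a c := by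
      intro W hW hWne hbW
      obtain ⟨a, ha, c, hc, hcW, hac⟩ := hS.2 W (hW.trans sdiff_subset) hWne
        (fun he => hbW (by rw [he]; exact hb))
      refine ⟨a, ha, c, ?_, hcW, hac⟩
      rw [mem_sdiff]
      refine ⟨hc, fun hcT => ?_⟩
      have ha' := mem_sdiff.1 (hW ha)
      exact hnadj a ha'.1 ha'.2 (fun he => hbW (he ▸ ha)) c hcT hac.symm
    by_cases hbU : b ∈ U
    · obtain ⟨a, ha, c, hc, hcW, hac⟩ := main ((S \ T) \ U) sdiff_subset (by
        rw [sdiff_nonempty]
        exact fun h => hU2 (Subset.antisymm hUS h)) (by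
        rw [mem_sdiff]; tauto)
      rw [mem_sdiff] at ha
      refine ⟨c, ?_, a, ha.1, ha.2, hac.symm⟩
      by_contra hcU
      exact hcW (mem_sdiff.2 ⟨hc, hcU⟩)
    · exact main U hUS hne hbU
  · obtain ⟨a, ha, c, hc, hcT, hac⟩ := hS.2 T hTS ⟨x, hxT⟩ (fun he => hbT (he ▸ hb))
    have : c = b := by
      by_contra hcb
      exact hnadj c hc hcT hcb a ha hac
    subst this
    exact ⟨a, ha, hac.symm⟩
  · intro U hUS hbU hUc ⟨y, hyU, hyT⟩
    exact hU U hUS hbU hUc ⟨y, hyT, y, hyU, Or.inl rfl⟩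

/-- In a graph of maximal degree at most `4` every connected set of `n ≥ 2` vertices has a
partition into two connected sets with at least `(n - 1) / 4` vertices. -/
theorem balanced_cut {G : SimpleGraph V} (N : V → Finset V) (hN : ∀ x y, G.Adj x y → y ∈ N x)
    (hN4 : ∀ x, (N x).card ≤ 4) {S : Finset V} (hS : Conn G S) (h2 : 2 ≤ S.card) :
    ∃ A ⊆ S, Conn G A ∧ Conn G (S \ A) ∧ 2 * A.card ≤ S.card ∧ S.card ≤ 4 * A.card + 1 := by
  classical
  let F : Finset (Finset V) := S.powerset.filter fun A => Conn G A ∧ Conn G (S \ A) ∧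
    2 * A.card ≤ S.card
  have hhalf : ∀ T ⊆ S, Conn G T → Conn G (S \ T) → T ∈ F ∨ S \ T ∈ F := by
    intro T hTS h1 h2
    by_cases h : 2 * T.card ≤ S.card
    · left
      simp only [F, mem_filter, mem_powerset]
      exact ⟨hTS, h1, h2, h⟩
    · right
      simp only [F, mem_filter, mem_powerset]
      refine ⟨sdiff_subset, h2, ?_, ?_⟩
      · rw [Finset.sdiff_sdiff_eq_self hTS]; exact h1
      · rw [card_sdiff_of_subset hTS]; omega
  have hF : F.Nonempty := by
    obtain ⟨b, hb, x, hx, hbx⟩ := one_lt_card.1 h2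
    obtain ⟨T, hTS, -, -, h3, h4, -⟩ := exists_comp hS hb hx (Ne.symm hbx)
    rcases hhalf T hTS h3 h4 with h | h
    · exact ⟨_, h⟩
    · exact ⟨_, h⟩
  obtain ⟨A, hAF, hmax⟩ := exists_max_image F card hF
  have hAF' := hAF
  simp only [F, mem_filter, mem_powerset] at hAF'
  obtain ⟨hAS, hAc, hBc, hAhalf⟩ := hAF'
  refine ⟨A, hAS, hAc, hBc, hAhalf, ?_⟩
  -- an edge between `A` and `B = S \ A`
  obtain ⟨a, ha, b, hbS, hbA, hab⟩ := hS.2 A hAS hAc.1 (fun he => by
    rw [he, sdiff_self] at hBc; exact absurd rfl hBc.1.ne_empty)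
  set B := S \ A with hB
  have hbB : b ∈ B := mem_sdiff.2 ⟨hbS, hbA⟩
  have hcardB : B.card = S.card - A.card := card_sdiff_of_subset hAS
  have hAle : A.card ≤ S.card := card_le_card hAS
  -- every component has at most `A.card` elements
  have hcomp : ∀ T ⊆ B, b ∉ T → Conn G T → Conn G (B \ T) → T.card ≤ A.card := by
    intro T hTB hbT hTc hTc2
    have hTS : T ⊆ S := hTB.trans sdiff_subset
    have hST : S \ T = A ∪ (B \ T) := by
      ext z
      simp only [hB, mem_sdiff, mem_union]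
      constructor
      · rintro ⟨h1, h2⟩
        by_cases hz : z ∈ A
        · exact Or.inl hz
        · exact Or.inr ⟨⟨h1, hz⟩, h2⟩
      · rintro (h1 | h1)
        · exact ⟨hAS h1, fun h => (mem_sdiff.1 (hTB h)).2 h1⟩
        · exact ⟨h1.1.1, h1.2⟩
    have hc : Conn G (S \ T) := by
      rw [hST]
      exact hAc.union hTc2 ⟨a, ha, b, mem_sdiff.2 ⟨hbB, hbT⟩, Or.inr hab⟩
    rcases hhalf T hTS hTc hc with h | h
    · exact hmax T h
    · exfalso
      have h1 := hmax _ h
      have h3 : insert b A ⊆ S \ T := by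
        intro z hz
        rcases mem_insert.1 hz with rfl | hz
        · exact mem_sdiff.2 ⟨hbS, hbT⟩
        · rw [hST]; exact mem_union_left _ hz
      have h4 := card_le_card h3
      rw [card_insert_of_notMem hbA] at h4
      omega
  -- the components cover `B \ {b}`
  have hcov : ∀ c ∈ B, c ≠ b → ∃ T : Finset V, T.card ≤ A.card ∧
      ∀ U ⊆ B, b ∉ U → Conn G U → c ∈ U → U ⊆ T := by
    intro c hc hcb
    obtain ⟨T, hTB, hcT, hbT, h3, h4, -, h5⟩ := exists_comp hBc hbB hc hcb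
    exact ⟨T, hcomp T hTB hbT h3 h4, fun U hU hbU hUc hcU => h5 U hU hbU hUc ⟨c, hcU, hcT⟩⟩
  choose! T hT1 hT2 using hcov
  have hsub : B.erase b ⊆ ((N b).erase a).biUnion fun c => if c ∈ B ∧ c ≠ b then T c else ∅ := by
    intro x hx
    rw [mem_erase] at hx
    obtain ⟨U, hUB, hxU, hbU, h3, h4, ⟨c, hcU, hbc⟩, h5⟩ := exists_comp hBc hbB hx.2 hx.1
    have hcB := hUB hcU
    have hcb : c ≠ b := fun h => hbU (h ▸ hcU)
    rw [mem_biUnion]
    refine ⟨c, ?_, ?_⟩
    · rw [mem_erase]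
      refine ⟨fun h => ?_, hN b c hbc⟩
      rw [h] at hcB
      exact (mem_sdiff.1 hcB).2 ha
    · rw [if_pos ⟨hcB, hcb⟩]
      exact hT2 c hcB hcb U hUB hbU h3 hcU hxU
  have h3 := card_le_card hsub
  have h4 : (((N b).erase a).biUnion fun c => if c ∈ B ∧ c ≠ b then T c else ∅).card ≤
      ((N b).erase a).card * A.card := by
    apply card_biUnion_le_card_mul
    intro c _
    split_ifs with h
    · exact hT1 c h.1 h.2
    · simp
  have h5 : ((N b).erase a).card ≤ 3 := by
    rw [card_erase_of_mem (hN b a hab.symm)]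
    have := hN4 b
    omega
  rw [card_erase_of_mem hbB] at h3
  have h6 : ((N b).erase a).card * A.card ≤ 3 * A.card := Nat.mul_le_mul_right _ h5
  omega

/-- a function which changes by at most one along edges attains all intermediate values -/
lemma Conn.Icc_subset {G : SimpleGraph V} {S : Finset V} (hS : Conn G S) (f : V → ℤ)
    (hf : ∀ x y, G.Adj x y → f y ≤ f x + 1) {c d : V} (hc : c ∈ S) (hd : d ∈ S) :
    Finset.Icc (f c) (f d) ⊆ S.image f := by
  classical
  intro j hj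
  rw [Finset.mem_Icc] at hj
  by_contra hcon
  have hne : ∀ x ∈ S, f x ≠ j := fun x hx h => hcon (mem_image.2 ⟨x, hx, h⟩)
  obtain ⟨a, ha, b, hb, hbT, hab⟩ := hS.2 (S.filter fun x => f x < j) (filter_subset _ _)
    ⟨c, mem_filter.2 ⟨hc, lt_of_le_of_ne hj.1 (hne c hc)⟩⟩
    (fun he => by
      have : d ∈ S.filter fun x => f x < j := by rw [he]; exact hd
      rw [mem_filter] at this
      omega)
  rw [mem_filter] at ha hbT
  have h1 := hf a b hab
  have h2 := hne b hb
  have h3 : ¬ f b < j := fun h => hbT ⟨hb, h⟩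
  omega

lemma Conn.diam {G : SimpleGraph V} {S : Finset V} (hS : Conn G S) (f : V → ℤ)
    (hf : ∀ x y, G.Adj x y → f y ≤ f x + 1) {c d : V} (hc : c ∈ S) (hd : d ∈ S) :
    f d - f c < S.card := by
  have h1 := card_le_card (hS.Icc_subset f hf hc hd)
  have h2 := h1.trans card_image_le
  rw [Int.card_Icc] at h2
  have : 0 < S.card := card_pos.2 hS.1
  omega

/-- connectedness is invariant under isomorphisms onto the image -/
lemma conn_map {W : Type} [DecidableEq W] {G : SimpleGraph V} {H : SimpleGraph W} (φ : V ↪ W)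
    {S : Finset V} (h : ∀ x ∈ S, ∀ y ∈ S, G.Adj x y ↔ H.Adj (φ x) (φ y)) :
    Conn H (S.map φ) ↔ Conn G S := by
  constructor
  · rintro ⟨hne, hc⟩
    refine ⟨map_nonempty.1 hne, fun T hT hTne hT2 => ?_⟩
    obtain ⟨a, ha, b, hb, hbT, hab⟩ := hc (T.map φ) (map_subset_map.2 hT) (map_nonempty.2 hTne)
      (fun he => hT2 (map_injective φ he))
    rw [mem_map] at ha hb
    obtain ⟨a', ha', rfl⟩ := ha
    obtain ⟨b', hb', rfl⟩ := hb
    refine ⟨a', ha', b', hb', fun h' => hbT (mem_map_of_mem φ h'), ?_⟩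
    exact (h a' (hT ha') b' hb').2 hab
  · rintro ⟨hne, hc⟩
    refine ⟨map_nonempty.2 hne, fun T hT hTne hT2 => ?_⟩
    let T' : Finset V := S.filter fun x => φ x ∈ T
    have hT' : T'.map φ = T := by
      ext y
      simp only [T', mem_map, mem_filter]
      constructor
      · rintro ⟨x, ⟨_, h2⟩, rfl⟩; exact h2
      · intro hy
        obtain ⟨x, hx, rfl⟩ := mem_map.1 (hT hy)
        exact ⟨x, ⟨hx, hy⟩, rfl⟩
    obtain ⟨a, ha, b, hb, hbT, hab⟩ := hc T' (filter_subset _ _)
      (by rw [← map_nonempty (f := φ), hT']; exact hTne)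
      (fun he => hT2 (by rw [← hT', he]))
    rw [mem_filter] at ha
    refine ⟨φ a, ha.2, φ b, mem_map_of_mem φ hb, fun h' => hbT (mem_filter.2 ⟨hb, h'⟩), ?_⟩
    exact (h a ha.1 b hb).1 hab

end Pool.Agent.V11135.Klarner
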