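import Pool.Agent.V11135.Klarner.Animals

/-!
# Fixed polyominoes
-/

set_option autoImplicit false

namespace Pool.Agent.V11135.Klarner

/-- The cells of the square lattice are the points `(u, v)` of `ℤ × ℤ` (the unit square with lower
left corner `(u, v)`); two cells are adjacent when they share an edge. -/
def cellGraph : SimpleGraph (ℤ × ℤ) where
  Adj c d := |c.1 - d.1| + |c.2 - d.2| = 1
  symm := ⟨fun c d h => by rw [abs_sub_comm d.1 c.1, abs_sub_comm d.2 c.2]; exact h⟩
  loopless := ⟨fun c h => by simp at h⟩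

/-- An `n`-omino: a set of `n` cells which is connected under adjacency. -/
def IsOmino (n : ℕ) (S : Finset (ℤ × ℤ)) : Prop :=
  S.card = n ∧ (cellGraph.induce (S : Set (ℤ × ℤ))).Connected

/-- Two `n`-ominoes are equivalent when one is a translate of the other. -/
def translation (n : ℕ) : Setoid {S : Finset (ℤ × ℤ) // IsOmino n S} where
  r S T := ∃ v : ℤ × ℤ, (T : Finset (ℤ × ℤ)) = (S : Finset (ℤ × ℤ)).map (addRightEmbedding v)
  iseqv := {
    refl := fun S => ⟨0, (tr_zero S.1).symm⟩
    symm := by
      rintro S T ⟨v, hv⟩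
      refine ⟨-v, ?_⟩
      rw [hv]
      exact ((tr_tr (-v) v S.1).trans (by rw [add_neg_cancel, tr_zero])).symm
    trans := by
      rintro S T U ⟨v, hv⟩ ⟨w, hw⟩
      refine ⟨v + w, ?_⟩
      rw [hw, hv]
      exact tr_tr w v S.1 }

/-- The number `t(n)` of fixed `n`-ominoes, that is, of `n`-ominoes modulo translations. -/
noncomputable def fixedOminoes (n : ℕ) : ℕ := Nat.card (Quotient (translation n))

lemma isOmino_iff {n : ℕ} {S : Finset (ℤ × ℤ)} : IsOmino n S ↔ S.card = n ∧ Conn grid S := by
  unfold IsOmino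
  rw [conn_iff]
  exact Iff.rfl

theorem fixedOminoes_eq (n : ℕ) : fixedOminoes n = tt n := by
  classical
  have hN : ∀ S ∈ NN n, IsOmino n S := fun S hS => isOmino_iff.2
    ⟨(mem_NN.1 hS).2.1, (mem_NN.1 hS).1⟩
  let f : {S // S ∈ NN n} → Quotient (translation n) :=
    fun S => Quotient.mk (translation n) ⟨S.1, hN S.1 S.2⟩
  have hf : Function.Bijective f := by
    constructor
    · rintro ⟨S, hS⟩ ⟨T, hT⟩ h
      obtain ⟨v, hv⟩ := Quotient.exact h
      change T = tr v S at hv
      apply Subtype.ext
      change S = T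
      rw [mem_NN] at hS hT
      have h1 : (0, 0) ∈ tr v S := by rw [← hv]; exact hT.2.2.1
      have h2 : v ∈ T := by
        rw [hv, mem_tr, sub_self]; exact hS.2.2.1
      rw [mem_tr] at h1
      have h3 := hS.2.2.2 _ h1
      have h4 := hT.2.2.2 _ h2
      have h5 : v = 0 := by
        obtain ⟨v1, v2⟩ := v
        simp only [lexle, lexlt, Prod.mk.injEq, Prod.mk_sub_mk] at h3 h4
        have : v1 = 0 ∧ v2 = 0 := by omega
        rw [this.1, this.2]; rfl
      rw [hv, h5, tr_zero]
    · intro q
      induction q using Quotient.inductionOn with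
      | h S =>
        obtain ⟨S, hS⟩ := S
        have hS' := isOmino_iff.1 hS
        obtain ⟨x, hx, hmin⟩ := exists_lexmin hS'.2.1
        have hmem : tr (-x) S ∈ NN n := by
          rw [mem_NN, conn_tr, card_tr, mem_tr]
          refine ⟨hS'.2, hS'.1, by rw [show ((0, 0) : ℤ × ℤ) - -x = x by simp]; exact hx,
            fun c hc => ?_⟩
          rw [mem_tr] at hc
          have := hmin _ hc
          obtain ⟨c1, c2⟩ := c
          obtain ⟨x1, x2⟩ := x
          simp only [lexle, lexlt, Prod.mk.injEq, Prod.neg_mk, Prod.mk_sub_mk] at this ⊢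
          omega
        refine ⟨⟨tr (-x) S, hmem⟩, Quotient.sound ⟨x, ?_⟩⟩
        change S = tr x (tr (-x) S)
        rw [tr_tr, neg_add_cancel, tr_zero]
  unfold fixedOminoes
  rw [← Nat.card_eq_of_bijective f hf, Nat.card_eq_fintype_card, Fintype.card_coe]
  rfl

end Pool.Agent.V11135.Klarner
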