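import Pool.Agent.V11135.Klarner.Limit

/-!
# Two animals can be glued in many ways: `t(n) = o(λ ^ n)`
-/

set_option autoImplicit false

open Finset Filter Topology

namespace Pool.Agent.V11135.Klarner

/-- a connected subset of a union of two sets without edges between them lies in one of them -/
lemma Conn.subset_left {V : Type} [DecidableEq V] {G : SimpleGraph V} {X Y Z : Finset V}
    (hX : Conn G X) (hXYZ : X ⊆ Y ∪ Z) (hYZ : ∀ y ∈ Y, ∀ z ∈ Z, ¬ G.Adj y z)
    (h : ∃ x ∈ X, x ∈ Y) : X ⊆ Y := by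
  obtain ⟨x, hxX, hxY⟩ := h
  by_contra hcon
  obtain ⟨a, ha, b, hb, hbT, hab⟩ := hX.2 (X ∩ Y) inter_subset_left ⟨x, mem_inter.2 ⟨hxX, hxY⟩⟩
    (fun he => hcon (by rw [← he]; exact inter_subset_right))
  rw [mem_inter] at ha hbT
  rcases mem_union.1 (hXYZ hb) with h1 | h1
  · exact hbT ⟨hb, h1⟩
  · exact hYZ a ha.2 b h1 hab

/-- `C` is `A`, `B` and one more cell `c`; the sets `A` and `B` are connected, disjoint and not
adjacent. -/
structure Glued (n : ℕ) (A B C : Finset (ℤ × ℤ)) (c : ℤ × ℤ) : Prop where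
  hA : Conn grid A
  hB : Conn grid B
  cA : A.card = n
  cB : B.card = n
  disj : Disjoint A B
  nadj : ∀ a ∈ A, ∀ b ∈ B, ¬ grid.Adj a b
  hcA : ∃ a ∈ A, grid.Adj c a
  hcB : ∃ b ∈ B, grid.Adj c b
  hc : c ∉ A ∪ B
  hC : C = insert c (A ∪ B)

lemma Glued.symm {n : ℕ} {A B C : Finset (ℤ × ℤ)} {c : ℤ × ℤ} (h : Glued n A B C c) :
    Glued n B A C c where
  hA := h.hB
  hB := h.hA
  cA := h.cB
  cB := h.cA
  disj := h.disj.symm
  nadj := fun a ha b hb hab => h.nadj b hb a ha hab.symm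
  hcA := h.hcB
  hcB := h.hcA
  hc := by rw [union_comm]; exact h.hc
  hC := by rw [union_comm]; exact h.hC

lemma Glued.center {n : ℕ} {A B A₁ B₁ C : Finset (ℤ × ℤ)} {c c₁ : ℤ × ℤ}
    (h : Glued n A B C c) (h₁ : Glued n A₁ B₁ C c₁) : c = c₁ := by
  by_contra hne
  -- it suffices to treat the case `c₁ ∈ A`
  have key : ∀ {A B : Finset (ℤ × ℤ)}, Glued n A B C c → c₁ ∈ A → False := by
    intro A B h hcA
    have hX : Conn grid ({c} ∪ B) := by
      obtain ⟨b, hb, hcb⟩ := h.hcB
      exact (conn_singleton grid c).union h.hB ⟨c, mem_singleton_self c, b, hb, Or.inr hcb⟩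
    have hcard : ({c} ∪ B).card = n + 1 := by
      rw [card_union_of_disjoint, card_singleton, h.cB, add_comm]
      rw [disjoint_singleton_left]
      exact fun hb => h.hc (mem_union_right _ hb)
    have hsub : {c} ∪ B ⊆ A₁ ∪ B₁ := by
      intro z hz
      have hzC : z ∈ C := by
        rw [h.hC, mem_insert, mem_union]
        rcases mem_union.1 hz with hz | hz
        · exact Or.inl (mem_singleton.1 hz)
        · exact Or.inr (Or.inr hz)
      rw [h₁.hC, mem_insert] at hzC
      rcases hzC with h2 | h2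
      · exfalso
        rcases mem_union.1 hz with hz | hz
        · rw [mem_singleton] at hz
          exact hne (by rw [← hz, h2])
        · rw [h2] at hz
          exact disjoint_left.1 h.disj hcA hz
      · exact h2
    obtain ⟨x, hx⟩ := hX.1
    rcases mem_union.1 (hsub hx) with h2 | h2
    · have := card_le_card (hX.subset_left hsub h₁.nadj ⟨x, hx, h2⟩)
      rw [hcard, h₁.cA] at this
      omega
    · have := card_le_card (hX.subset_left (by rw [union_comm B₁ A₁]; exact hsub)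
        h₁.symm.nadj ⟨x, hx, h2⟩)
      rw [hcard, h₁.cB] at this
      omega
  have hc₁ : c₁ ∈ C := by rw [h₁.hC]; exact mem_insert_self _ _
  rw [h.hC, mem_insert, mem_union] at hc₁
  rcases hc₁ with h2 | h2 | h2
  · exact hne h2.symm
  · exact key h h2
  · exact key h.symm h2

lemma Glued.unique {n : ℕ} {A B A₁ B₁ C : Finset (ℤ × ℤ)} {c c₁ x : ℤ × ℤ}
    (h : Glued n A B C c) (h₁ : Glued n A₁ B₁ C c₁) (hx : x ∈ A) (hx₁ : x ∈ A₁) :
    A = A₁ ∧ B = B₁ := by
  have hcc := h.center h₁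
  subst hcc
  have hU : A ∪ B = A₁ ∪ B₁ := by
    have h2 : C.erase c = A ∪ B := by rw [h.hC]; exact erase_insert h.hc
    have h3 : C.erase c = A₁ ∪ B₁ := by rw [h₁.hC]; exact erase_insert h₁.hc
    rw [← h2, h3]
  have hAA : A = A₁ := by
    apply eq_of_subset_of_card_le
    · exact h.hA.subset_left (by rw [← hU]; exact subset_union_left) h₁.nadj ⟨x, hx, hx₁⟩
    · rw [h.cA, h₁.cA]
  refine ⟨hAA, ?_⟩
  have h2 : (A ∪ B) \ A = B := by
    rw [union_sdiff_left, Finset.sdiff_eq_self_iff_disjoint]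
    exact h.disj.symm
  have h3 : (A₁ ∪ B₁) \ A₁ = B₁ := by
    rw [union_sdiff_left, Finset.sdiff_eq_self_iff_disjoint]
    exact h₁.disj.symm
  rw [← h2, ← h3, hU, hAA]

/-- two animals which share a row (after a vertical translation) can be glued -/
lemma exists_glue {n : ℕ} {A B : Finset (ℤ × ℤ)} (hA : A ∈ AA n) (hB : B ∈ AA n) {s : ℤ}
    (hs : s ∈ A.image Prod.snd) :
    ∃ x : ℤ, ∃ c : ℤ × ℤ, Glued n A (tr (x, s) B) (insert c (A ∪ tr (x, s) B)) c := by
  classical
  rw [mem_AA] at hA hB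
  -- closeness
  let P : ℤ → Prop := fun x => ∃ a ∈ A, ∃ b ∈ B, |a.1 - (b.1 + x)| + |a.2 - (b.2 + s)| ≤ 1
  obtain ⟨a0, ha0, ha0s⟩ := mem_image.1 hs
  have hP0 : P a0.1 := ⟨a0, ha0, (0, 0), hB.2.2, by
    simp only [zero_add, sub_self, abs_zero]
    rw [ha0s]; simp⟩
  have hbA := hA.1.subset_box hA.2.2
  have hbB := hB.1.subset_box hB.2.2
  rw [hA.2.1] at hbA
  rw [hB.2.1] at hbB
  have hfar : ∃ k : ℕ, ¬ P (a0.1 + k) := by
    refine ⟨4 * n + 2, ?_⟩
    rintro ⟨a, ha, b, hb, hab⟩
    have h1 := hbA ha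
    have h2 := hbB hb
    have h3 := hbA ha0
    simp only [box, mem_product, Finset.mem_Icc] at h1 h2 h3
    have h4 := abs_nonneg (a.2 - (b.2 + s))
    have h5 : |a.1 - (b.1 + (a0.1 + ((4 * n + 2 : ℕ) : ℤ)))| ≤ 1 := by linarith
    rw [abs_le] at h5
    push_cast at h5
    omega
  have hk := Nat.find_spec hfar
  set k := Nat.find hfar with hkdef
  have hk0 : k ≠ 0 := by
    intro h
    rw [h] at hk
    apply hk
    simpa using hP0
  have hk1 : P (a0.1 + ((k - 1 : ℕ) : ℤ)) := by
    by_contra hcon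
    exact Nat.find_min hfar (m := k - 1) (by omega) hcon
  set x : ℤ := a0.1 + k with hx
  have hx1 : a0.1 + ((k - 1 : ℕ) : ℤ) = x - 1 := by
    rw [hx]; push_cast [Nat.cast_sub (show 1 ≤ k by omega)]; ring
  rw [hx1] at hk1
  obtain ⟨a, ha, b, hb, hab⟩ := hk1
  have hnot : ∀ a ∈ A, ∀ b ∈ tr (x, s) B, 2 ≤ |a.1 - b.1| + |a.2 - b.2| := by
    intro a ha b hb
    rw [mem_tr] at hb
    by_contra hcon
    push Not at hcon
    apply hk
    refine ⟨a, ha, b - (x, s), hb, ?_⟩
    simp only [Prod.fst_sub, Prod.snd_sub]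
    have e1 : a.1 - (b.1 - x + x) = a.1 - b.1 := by ring
    have e2 : a.2 - (b.2 - s + s) = a.2 - b.2 := by ring
    rw [e1, e2]
    omega
  have hb' : b + (x, s) ∈ tr (x, s) B := by rw [mem_tr]; simpa using hb
  have h2 := hnot a ha _ hb'
  simp only [Prod.fst_add, Prod.snd_add] at h2
  -- the cell in the middle
  obtain ⟨c, hc1, hc2⟩ : ∃ c : ℤ × ℤ, grid.Adj c a ∧ grid.Adj c (b + (x, s)) := by
    obtain ⟨a1, a2⟩ := a
    obtain ⟨b1, b2⟩ := b
    simp only at hab h2
    simp only [grid_adj, Prod.mk_add_mk]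
    by_cases e1 : a1 = b1 + x
    · refine ⟨(a1, (a2 + (b2 + s)) / 2), ?_, ?_⟩
      · simp only
        rcases abs_cases (a1 - (b1 + (x - 1))) with h3 | h3 <;>
          rcases abs_cases (a2 - (b2 + s)) with h4 | h4 <;>
          rcases abs_cases (a1 - (b1 + x)) with h5 | h5 <;>
          rcases abs_cases (a1 - a1) with h6 | h6 <;>
          rcases abs_cases ((a2 + (b2 + s)) / 2 - a2) with h7 | h7 <;> omega
      · simp only
        rcases abs_cases (a1 - (b1 + (x - 1))) with h3 | h3 <;>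
          rcases abs_cases (a2 - (b2 + s)) with h4 | h4 <;>
          rcases abs_cases (a1 - (b1 + x)) with h5 | h5 <;>
          rcases abs_cases ((a2 + (b2 + s)) / 2 - (b2 + s)) with h7 | h7 <;> omega
    · by_cases e2 : a2 = b2 + s
      · refine ⟨((a1 + (b1 + x)) / 2, a2), ?_, ?_⟩
        · simp only
          rcases abs_cases (a1 - (b1 + (x - 1))) with h3 | h3 <;>
            rcases abs_cases (a2 - (b2 + s)) with h4 | h4 <;>
            rcases abs_cases (a1 - (b1 + x)) with h5 | h5 <;>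
            rcases abs_cases (a2 - a2) with h6 | h6 <;>
            rcases abs_cases ((a1 + (b1 + x)) / 2 - a1) with h7 | h7 <;> omega
        · simp only
          rcases abs_cases (a1 - (b1 + (x - 1))) with h3 | h3 <;>
            rcases abs_cases (a2 - (b2 + s)) with h4 | h4 <;>
            rcases abs_cases (a1 - (b1 + x)) with h5 | h5 <;>
            rcases abs_cases ((a1 + (b1 + x)) / 2 - (b1 + x)) with h7 | h7 <;> omega
      · refine ⟨(a1, b2 + s), ?_, ?_⟩
        · simp only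
          rcases abs_cases (a1 - (b1 + (x - 1))) with h3 | h3 <;>
            rcases abs_cases (a2 - (b2 + s)) with h4 | h4 <;>
            rcases abs_cases (a1 - (b1 + x)) with h5 | h5 <;>
            rcases abs_cases (a1 - a1) with h6 | h6 <;>
            rcases abs_cases (b2 + s - a2) with h7 | h7 <;> omega
        · simp only
          rcases abs_cases (a1 - (b1 + (x - 1))) with h3 | h3 <;>
            rcases abs_cases (a2 - (b2 + s)) with h4 | h4 <;>
            rcases abs_cases (a1 - (b1 + x)) with h5 | h5 <;>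
            rcases abs_cases (b2 + s - (b2 + s)) with h7 | h7 <;> omega
  refine ⟨x, c, ⟨hA.1, conn_tr.2 hB.1, hA.2.1, by rw [card_tr, hB.2.1], ?_, ?_, ⟨a, ha, hc1⟩,
    ⟨_, hb', hc2⟩, ?_, rfl⟩⟩
  · rw [disjoint_left]
    intro z hz hz'
    have := hnot z hz z hz'
    simp at this
  · intro a ha b hb hab
    rw [grid_adj] at hab
    have := hnot a ha b hb
    omega
  · intro hcu
    rcases mem_union.1 hcu with h3 | h3
    · have := hnot c h3 _ hb'
      rw [grid_adj] at hc2
      omega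
    · have := hnot a ha c h3
      have h5 := hc1.symm
      rw [grid_adj] at h5
      omega

open Classical in
/-- the animals whose height is at least their width -/
noncomputable def tall (n : ℕ) : Finset (Finset (ℤ × ℤ)) :=
  (AA n).filter fun S => (S.image Prod.fst).card ≤ (S.image Prod.snd).card

lemma tall_sq {n : ℕ} {S : Finset (ℤ × ℤ)} (hS : S ∈ tall n) :
    n ≤ (S.image Prod.snd).card ^ 2 := by
  classical
  unfold tall at hS
  rw [mem_filter, mem_AA] at hS
  have h1 : S ⊆ S.image Prod.fst ×ˢ S.image Prod.snd := by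
    intro c hc
    rw [mem_product]
    exact ⟨mem_image_of_mem _ hc, mem_image_of_mem _ hc⟩
  have h2 := card_le_card h1
  rw [card_product, hS.1.2.1] at h2
  calc n ≤ (S.image Prod.fst).card * (S.image Prod.snd).card := h2
    _ ≤ (S.image Prod.snd).card * (S.image Prod.snd).card := Nat.mul_le_mul_right _ hS.2
    _ = _ := by ring

/-- reflection in the diagonal -/
def sw (S : Finset (ℤ × ℤ)) : Finset (ℤ × ℤ) := S.map (Equiv.prodComm ℤ ℤ).toEmbedding

lemma conn_sw {S : Finset (ℤ × ℤ)} : Conn grid (sw S) ↔ Conn grid S :=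
  conn_map _ fun x _ y _ => by
    simp only [grid_adj, Equiv.coe_toEmbedding, Equiv.prodComm_apply, Prod.fst_swap, Prod.snd_swap]
    rw [add_comm]

lemma aa_le_tall (n : ℕ) : aa n ≤ 2 * (tall n).card := by
  classical
  have h1 : ((AA n).filter fun S => ¬ (S.image Prod.fst).card ≤ (S.image Prod.snd).card).card ≤
      (tall n).card := by
    apply card_le_card_of_injOn sw
    · intro S hS
      rw [mem_coe, mem_filter, mem_AA] at hS
      rw [mem_coe]
      unfold tall
      rw [mem_filter, mem_AA, conn_sw]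
      have e1 : (sw S).image Prod.fst = S.image Prod.snd := by
        unfold sw; ext z; simp
      have e2 : (sw S).image Prod.snd = S.image Prod.fst := by
        unfold sw; ext z; simp
      refine ⟨⟨hS.1.1, ?_, ?_⟩, ?_⟩
      · unfold sw; rw [card_map]; exact hS.1.2.1
      · have h0 := hS.1.2.2
        unfold sw
        rw [Finset.mem_map]
        exact ⟨(0, 0), h0, rfl⟩
      · rw [e1, e2]
        have := hS.2
        omega
    · intro S _ T _ h
      exact map_injective _ h
  have h2 := card_filter_add_card_filter_not (s := AA n)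
    (fun S : Finset (ℤ × ℤ) => (S.image Prod.fst).card ≤ (S.image Prod.snd).card)
  unfold aa
  unfold tall at h1 ⊢
  omega

/-- the gluing inequality -/
theorem glue_ineq (n : ℕ) :
    (aa n : ℝ) ^ 2 * √n ≤ 2 * (2 * n + 1) * aa (2 * n + 1) := by
  classical
  have hex : ∀ A ∈ AA n, ∀ B ∈ AA n, ∀ s ∈ A.image Prod.snd,
      ∃ x : ℤ, ∃ c : ℤ × ℤ, Glued n A (tr (x, s) B) (insert c (A ∪ tr (x, s) B)) c :=
    fun A hA B hB s hs => exists_glue hA hB hs
  choose! X c hXc using hex
  -- the source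
  let src : Finset (Σ _ : Finset (ℤ × ℤ) × Finset (ℤ × ℤ), ℤ) :=
    (tall n ×ˢ AA n).sigma fun p => p.1.image Prod.snd
  let tgt : Finset (Σ _ : Finset (ℤ × ℤ), ℤ × ℤ) := (AA (2 * n + 1)).sigma fun C => C
  have hsubt : tall n ⊆ AA n := filter_subset _ _
  have hinj : src.card ≤ tgt.card := by
    apply card_le_card_of_injOn (fun p : (Σ _ : Finset (ℤ × ℤ) × Finset (ℤ × ℤ), ℤ) =>
      (⟨insert (c p.1.1 p.1.2 p.2) (p.1.1 ∪ tr (X p.1.1 p.1.2 p.2, p.2) p.1.2),
        (X p.1.1 p.1.2 p.2, p.2)⟩ : Σ _ : Finset (ℤ × ℤ), ℤ × ℤ))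
    · rintro ⟨⟨A, B⟩, s⟩ hp
      rw [mem_coe] at hp
      simp only [src, mem_sigma, mem_product] at hp
      obtain ⟨⟨hA, hB⟩, hs⟩ := hp
      have hA' := hsubt hA
      have h := hXc A hA' B hB s hs
      have hAm := mem_AA.1 hA'
      have hBm := mem_AA.1 hB
      rw [mem_coe]
      simp only [tgt, mem_sigma]
      constructor
      · rw [mem_AA]
        refine ⟨?_, ?_, ?_⟩
        · obtain ⟨a, ha, hca⟩ := h.hcA
          obtain ⟨b, hb, hcb⟩ := h.hcB
          have h1 : Conn grid ({c A B s} ∪ A) :=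
            (conn_singleton grid _).union h.hA ⟨_, mem_singleton_self _, a, ha, Or.inr hca⟩
          have h2 := h1.union h.hB ⟨_, mem_union_left _ (mem_singleton_self _), b, hb, Or.inr hcb⟩
          rw [insert_eq, ← union_assoc]
          exact h2
        · rw [card_insert_of_notMem h.hc, card_union_of_disjoint h.disj, h.cA, h.cB]
          omega
        · exact mem_insert_of_mem (mem_union_left _ hAm.2.2)
      · apply mem_insert_of_mem
        apply mem_union_right
        rw [mem_tr, sub_self]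
        exact hBm.2.2
    · rintro ⟨⟨A, B⟩, s⟩ hp ⟨⟨A', B'⟩, s'⟩ hp' heq
      rw [mem_coe] at hp hp'
      simp only [src, mem_sigma, mem_product] at hp hp'
      obtain ⟨⟨hA, hB⟩, hs⟩ := hp
      obtain ⟨⟨hA', hB'⟩, hs'⟩ := hp'
      have h := hXc A (hsubt hA) B hB s hs
      have h' := hXc A' (hsubt hA') B' hB' s' hs'
      simp only [Sigma.mk.injEq, heq_eq_eq, Prod.mk.injEq] at heq
      obtain ⟨h1, h2, h3⟩ := heq
      subst h3
      rw [h1] at h
      have h4 := Glued.unique (x := (0, 0)) h h' (mem_AA.1 (hsubt hA)).2.2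
        (mem_AA.1 (hsubt hA')).2.2
      obtain ⟨h5, h6⟩ := h4
      subst h5
      rw [← h2] at h6
      have h7 : B = B' := map_injective _ h6
      subst h7
      rfl
  have hsrc : ((tall n).card : ℝ) * aa n * √n ≤ src.card := by
    simp only [src]
    rw [card_sigma]
    push_cast
    have h1 : ∀ p ∈ tall n ×ˢ AA n, √(n : ℝ) ≤ ((p.1.image Prod.snd).card : ℝ) := by
      intro p hp
      rw [mem_product] at hp
      have h2 := tall_sq hp.1
      rw [Real.sqrt_le_left (by positivity)]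
      exact_mod_cast h2
    have h2 := sum_le_sum h1
    rw [sum_const, nsmul_eq_mul, card_product] at h2
    push_cast at h2
    exact h2
  have htgt : (tgt.card : ℝ) = (2 * n + 1) * aa (2 * n + 1) := by
    simp only [tgt]
    rw [card_sigma]
    have h1 : ∀ C ∈ AA (2 * n + 1), C.card = 2 * n + 1 := fun C hC => (mem_AA.1 hC).2.1
    rw [sum_congr rfl h1, sum_const, smul_eq_mul]
    unfold aa
    push_cast
    ring
  have h3 : (aa n : ℝ) ≤ 2 * (tall n).card := by exact_mod_cast aa_le_tall n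
  have h4 : (src.card : ℝ) ≤ tgt.card := by exact_mod_cast hinj
  have h5 : 0 ≤ (aa n : ℝ) * √n := by positivity
  calc (aa n : ℝ) ^ 2 * √n = aa n * (aa n * √n) := by ring
    _ ≤ 2 * (tall n).card * (aa n * √n) := mul_le_mul_of_nonneg_right h3 h5
    _ = 2 * ((tall n).card * aa n * √n) := by ring
    _ ≤ 2 * src.card := by linarith
    _ ≤ 2 * tgt.card := by linarith
    _ = _ := by rw [htgt]; ring

/-- every class of animals with `n` cells has `n` representatives containing the origin -/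
lemma le_aa (n : ℕ) : n * tt n ≤ aa n := by
  classical
  have h : ((NN n).sigma fun S => S).card ≤ (AA n).card := by
    apply card_le_card_of_injOn (fun p : (Σ _ : Finset (ℤ × ℤ), ℤ × ℤ) => tr (-p.2) p.1)
    · rintro ⟨S, u⟩ hp
      rw [mem_coe, mem_sigma, mem_NN] at hp
      obtain ⟨⟨h1, h2, -, -⟩, h4⟩ := hp
      simp only at h1 h2 h4
      rw [mem_coe, mem_AA, conn_tr, card_tr, mem_tr]
      refine ⟨h1, h2, ?_⟩
      rw [show ((0, 0) : ℤ × ℤ) - -u = u by simp]
      exact h4
    · rintro ⟨S, u⟩ hp ⟨S', u'⟩ hp' heq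
      rw [mem_coe, mem_sigma, mem_NN] at hp hp'
      obtain ⟨⟨-, -, h0, hmin⟩, -⟩ := hp
      obtain ⟨⟨-, -, h0', hmin'⟩, -⟩ := hp'
      simp only at h0 hmin h0' hmin' heq
      -- `S` is the translate of `S'` by `u - u'`
      have h1 : S = tr (u - u') S' := by
        have h2 := congrArg (tr u) heq
        rw [tr_tr, tr_tr, neg_add_cancel, tr_zero] at h2
        rw [h2]
        congr 1
        abel
      have h2 : (0, 0) - (u - u') ∈ S' := by
        rw [h1, mem_tr] at h0; exact h0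
      have h3 : u - u' ∈ S := by rw [h1, mem_tr, sub_self]; exact h0'
      have h4 := hmin' _ h2
      have h5 := hmin _ h3
      have h6 : u = u' := by
        obtain ⟨u1, u2⟩ := u
        obtain ⟨v1, v2⟩ := u'
        simp only [lexle, lexlt, Prod.mk.injEq, Prod.mk_sub_mk] at h4 h5 ⊢
        omega
      subst h6
      have h7 : S = S' := by rw [h1, sub_self, tr_zero]
      subst h7
      rfl
  rw [card_sigma] at h
  have h1 : ∀ S ∈ NN n, S.card = n := fun S hS => (mem_NN.1 hS).2.1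
  rw [sum_congr rfl h1, sum_const, smul_eq_mul] at h
  unfold tt aa
  rw [mul_comm]
  exact h

/-- the gluing inequality for the number of animals up to translation -/
theorem tt_sq (n : ℕ) : (tt n : ℝ) ^ 2 * √n ≤ 18 * tt (2 * n + 1) := by
  rcases Nat.eq_zero_or_pos n with rfl | hn
  · simp [tt_zero]
  have h1 := glue_ineq n
  have h2 : (n : ℝ) * tt n ≤ aa n := by exact_mod_cast le_aa n
  have h3 : (aa (2 * n + 1) : ℝ) ≤ (2 * n + 1) * tt (2 * n + 1) := by
    exact_mod_cast aa_le (2 * n + 1)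
  have hn1 : (1 : ℝ) ≤ n := by exact_mod_cast hn
  have hn0 : (0 : ℝ) < n := by linarith
  have hs : 0 < √(n : ℝ) := Real.sqrt_pos.2 hn0
  have h6 : (2 * (n : ℝ) + 1) ^ 2 ≤ 9 * n ^ 2 := by nlinarith
  have h7 : (n : ℝ) ^ 2 * ((tt n : ℝ) ^ 2 * √n) ≤ n ^ 2 * (18 * tt (2 * n + 1)) := by
    calc (n : ℝ) ^ 2 * ((tt n : ℝ) ^ 2 * √n) = ((n : ℝ) * tt n) ^ 2 * √n := by ring
      _ ≤ (aa n : ℝ) ^ 2 * √n := by
          apply mul_le_mul_of_nonneg_right _ hs.le
          exact pow_le_pow_left₀ (by positivity) h2 2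
      _ ≤ 2 * (2 * (n : ℝ) + 1) * aa (2 * n + 1) := h1
      _ ≤ 2 * (2 * (n : ℝ) + 1) * ((2 * n + 1) * tt (2 * n + 1)) :=
          mul_le_mul_of_nonneg_left h3 (by positivity)
      _ = 2 * (2 * (n : ℝ) + 1) ^ 2 * tt (2 * n + 1) := by ring
      _ ≤ 2 * (9 * n ^ 2) * tt (2 * n + 1) := by
          apply mul_le_mul_of_nonneg_right _ (Nat.cast_nonneg _)
          linarith
      _ = _ := by ring
  exact le_of_mul_le_mul_left h7 (by positivity)

/-- `t(n) = o(λ ^ n)` -/
theorem tt_div_tendsto : Tendsto (fun n : ℕ => (tt n : ℝ) / lam ^ n) atTop (𝓝 0) := by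
  have hb : ∀ n : ℕ, 1 ≤ n → ((tt n : ℝ) / lam ^ n) ^ 2 ≤ 18 * lam / √n := by
    intro n hn
    have h1 := glue_ineq n
    have h2 : (n : ℝ) * tt n ≤ aa n := by exact_mod_cast le_aa n
    have h3 : (aa (2 * n + 1) : ℝ) ≤ (2 * n + 1) * tt (2 * n + 1) := by
      exact_mod_cast aa_le (2 * n + 1)
    have h4 := tt_le_lam (n := 2 * n + 1) (by omega)
    have hn1 : (1 : ℝ) ≤ n := by exact_mod_cast hn
    have hn0 : (0 : ℝ) < n := by linarith
    have hs : 0 < √(n : ℝ) := Real.sqrt_pos.2 hn0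
    have hl := pow_pos lam_pos n
    have h5 : ((n : ℝ) * tt n) ^ 2 * √n ≤ 2 * (2 * n + 1) ^ 2 * lam ^ (2 * n + 1) := by
      calc ((n : ℝ) * tt n) ^ 2 * √n ≤ (aa n : ℝ) ^ 2 * √n := by
            apply mul_le_mul_of_nonneg_right _ hs.le
            exact pow_le_pow_left₀ (by positivity) h2 2
        _ ≤ 2 * (2 * (n : ℝ) + 1) * aa (2 * n + 1) := h1
        _ ≤ 2 * (2 * (n : ℝ) + 1) * ((2 * n + 1) * lam ^ (2 * n + 1)) := by
            apply mul_le_mul_of_nonneg_left _ (by positivity)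
            exact h3.trans (mul_le_mul_of_nonneg_left h4 (by positivity))
        _ = _ := by ring
    have h6 : (2 * (n : ℝ) + 1) ^ 2 ≤ 9 * n ^ 2 := by nlinarith
    have h7 : (n : ℝ) ^ 2 * ((tt n : ℝ) ^ 2 * √n) ≤ n ^ 2 * (18 * lam ^ (2 * n + 1)) := by
      calc (n : ℝ) ^ 2 * ((tt n : ℝ) ^ 2 * √n) = ((n : ℝ) * tt n) ^ 2 * √n := by ring
        _ ≤ 2 * (2 * n + 1) ^ 2 * lam ^ (2 * n + 1) := h5
        _ ≤ 2 * (9 * n ^ 2) * lam ^ (2 * n + 1) := by
            apply mul_le_mul_of_nonneg_right _ (pow_pos lam_pos _).le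
            linarith
        _ = _ := by ring
    have h8 : (tt n : ℝ) ^ 2 * √n ≤ 18 * lam ^ (2 * n + 1) :=
      le_of_mul_le_mul_left h7 (by positivity)
    rw [div_pow, div_le_div_iff₀ (by positivity) hs]
    calc (tt n : ℝ) ^ 2 * √n ≤ 18 * lam ^ (2 * n + 1) := h8
      _ = 18 * lam * (lam ^ n) ^ 2 := by rw [pow_succ, pow_mul']; ring
  have hlim : Tendsto (fun n : ℕ => 18 * lam / √(n : ℝ)) atTop (𝓝 0) := by
    apply Tendsto.div_atTop tendsto_const_nhds
    exact Real.tendsto_sqrt_atTop.comp tendsto_natCast_atTop_atTop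
  have hsq : Tendsto (fun n : ℕ => ((tt n : ℝ) / lam ^ n) ^ 2) atTop (𝓝 0) := by
    apply squeeze_zero' (Eventually.of_forall fun n => sq_nonneg _) _ hlim
    filter_upwards [eventually_ge_atTop 1] with n hn
    exact hb n hn
  have h := hsq.sqrt
  rw [Real.sqrt_zero] at h
  refine h.congr fun n => ?_
  rw [Real.sqrt_sq]
  have := lam_pos
  positivity

end Pool.Agent.V11135.Klarner
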