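import Pool.Agent.V11135.Klarner.Animals

/-!
# The growth constant and the upper bounds
-/

set_option autoImplicit false

open Finset Filter Topology

namespace Pool.Agent.V11135.Klarner

/-- the window induction -/
theorem window {N : ℕ} (hN : 1 ≤ N) {x : ℝ} (hx : 0 ≤ x)
    (h : ∀ k, N ≤ k → k ≤ 5 * N → 80 * (k : ℝ) ^ 2 * aa k ≤ x ^ k) (n : ℕ) (hn : N ≤ n) :
    80 * (n : ℝ) ^ 2 * aa n ≤ x ^ n := by
  induction n using Nat.strong_induction_on with
  | _ n ih =>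
    by_cases h5 : n ≤ 5 * N
    · exact h n hn h5
    push Not at h5
    have hn2 : 2 ≤ n := by omega
    have hnpos : (0 : ℝ) < n := by positivity
    set W := (Finset.range (n + 1)).filter (fun i => n ≤ 4 * i + 1 ∧ 2 * i ≤ n) with hW
    have hrec : (aa n : ℝ) ≤ ∑ i ∈ W, 4 * (n : ℝ) * ((aa i : ℝ) * aa (n - i)) := by
      exact_mod_cast aa_rec hn2
    have hWc : (W.card : ℝ) ≤ (n : ℝ) / 2 := by
      have h1 : W ⊆ Finset.Icc 1 (n / 2) := by
        intro i hi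
        rw [hW, mem_filter] at hi
        rw [Finset.mem_Icc]
        omega
      have h2 := card_le_card h1
      rw [Nat.card_Icc] at h2
      have h3 : 2 * W.card ≤ n := by omega
      have h4 : 2 * (W.card : ℝ) ≤ n := by exact_mod_cast h3
      linarith
    have hterm : ∀ i ∈ W, 80 * (n : ℝ) ^ 2 * (4 * (n : ℝ) * ((aa i : ℝ) * aa (n - i))) ≤
        2 / n * x ^ n := by
      intro i hi
      rw [hW, mem_filter] at hi
      obtain ⟨-, hi1, hi2⟩ := hi
      have h1 := ih i (by omega) (by omega)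
      have h2 := ih (n - i) (by omega) (by omega)
      have h3 : ((n - i : ℕ) : ℝ) = (n : ℝ) - i := by
        rw [Nat.cast_sub (by omega)]
      rw [h3] at h2
      have h4 : (n : ℝ) ≤ 5 * i := by
        have : n ≤ 5 * i := by omega
        exact_mod_cast this
      have h5 : 2 * (i : ℝ) ≤ n := by exact_mod_cast hi2
      have h6 : 4 * (n : ℝ) ^ 2 / 25 ≤ i * ((n : ℝ) - i) := by nlinarith
      have hipos : (0 : ℝ) ≤ i := Nat.cast_nonneg i
      have h7 : (4 * (n : ℝ) ^ 2 / 25) ^ 2 ≤ (i * ((n : ℝ) - i)) ^ 2 :=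
        pow_le_pow_left₀ (by positivity) h6 2
      have h8 : (80 * (i : ℝ) ^ 2 * aa i) * (80 * ((n : ℝ) - i) ^ 2 * aa (n - i)) ≤ x ^ n := by
        calc _ ≤ x ^ i * x ^ (n - i) :=
              mul_le_mul h1 h2 (by positivity) (pow_nonneg hx i)
          _ = x ^ n := by rw [← pow_add]; congr 1; omega
      set P : ℝ := (aa i : ℝ) * aa (n - i) with hP
      have hPpos : 0 ≤ P := by positivity
      have h9 : 6400 * (i * ((n : ℝ) - i)) ^ 2 * P ≤ x ^ n := by
        calc _ = (80 * (i : ℝ) ^ 2 * aa i) * (80 * ((n : ℝ) - i) ^ 2 * aa (n - i)) := by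
              rw [hP]; ring
          _ ≤ _ := h8
      have h10 : 160 * (n : ℝ) ^ 4 * P ≤ x ^ n := by
        have h11 : 160 * (n : ℝ) ^ 4 ≤ 6400 * (i * ((n : ℝ) - i)) ^ 2 := by nlinarith [h7, pow_nonneg hnpos.le 4]
        exact (mul_le_mul_of_nonneg_right h11 hPpos).trans h9
      rw [div_mul_eq_mul_div, le_div_iff₀ hnpos]
      calc _ = 2 * (160 * (n : ℝ) ^ 4 * P) := by ring
        _ ≤ 2 * x ^ n := by linarith
    calc 80 * (n : ℝ) ^ 2 * aa n ≤
          80 * (n : ℝ) ^ 2 * ∑ i ∈ W, 4 * (n : ℝ) * ((aa i : ℝ) * aa (n - i)) :=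
          mul_le_mul_of_nonneg_left hrec (by positivity)
      _ = ∑ i ∈ W, 80 * (n : ℝ) ^ 2 * (4 * (n : ℝ) * ((aa i : ℝ) * aa (n - i))) := by
          rw [mul_sum]
      _ ≤ ∑ _i ∈ W, 2 / n * x ^ n := sum_le_sum hterm
      _ = W.card * (2 / n * x ^ n) := by rw [sum_const, nsmul_eq_mul]
      _ ≤ n / 2 * (2 / n * x ^ n) := mul_le_mul_of_nonneg_right hWc (by positivity)
      _ = x ^ n := by field_simp

/-- the negative logarithm of the number of animals -/
noncomputable def uu (n : ℕ) : ℝ := - Real.log (tt n)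

lemma tt_zero : tt 0 = 0 := by
  unfold tt
  rw [Finset.card_eq_zero, Finset.eq_empty_iff_forall_notMem]
  intro S hS
  rw [mem_NN] at hS
  have := card_pos.2 hS.1.1
  omega

lemma uu_sub : Subadditive uu := by
  intro m n
  unfold uu
  rcases Nat.eq_zero_or_pos m with rfl | hm
  · simp [tt_zero]
  rcases Nat.eq_zero_or_pos n with rfl | hn
  · simp [tt_zero]
  have h1 : (0 : ℝ) < tt m := by exact_mod_cast tt_pos hm
  have h2 : (0 : ℝ) < tt n := by exact_mod_cast tt_pos hn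
  have h3 : (tt m : ℝ) * tt n ≤ tt (m + n) := by exact_mod_cast tt_mul
  have h4 := Real.log_le_log (by positivity) h3
  rw [Real.log_mul h1.ne' h2.ne'] at h4
  linarith

lemma exists_exp_bound : ∃ x : ℝ, 1 ≤ x ∧ ∀ n : ℕ, 1 ≤ n → (tt n : ℝ) ≤ x ^ n := by
  refine ⟨1 + ∑ k ∈ Finset.Icc (1 : ℕ) 5, 80 * (k : ℝ) ^ 2 * aa k, ?_, ?_⟩
  · have : 0 ≤ ∑ k ∈ Finset.Icc (1 : ℕ) 5, 80 * (k : ℝ) ^ 2 * aa k :=
      sum_nonneg fun k _ => by positivity
    linarith
  · intro n hn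
    set x : ℝ := 1 + ∑ k ∈ Finset.Icc (1 : ℕ) 5, 80 * (k : ℝ) ^ 2 * aa k with hx
    have h0 : 0 ≤ ∑ k ∈ Finset.Icc (1 : ℕ) 5, 80 * (k : ℝ) ^ 2 * aa k :=
      sum_nonneg fun k _ => by positivity
    have hx1 : 1 ≤ x := by rw [hx]; linarith
    have h1 := window (N := 1) le_rfl (x := x) (by linarith) (fun k hk1 hk2 => ?_) n hn
    · have h2 : (tt n : ℝ) ≤ aa n := by exact_mod_cast tt_le_aa n
      have h3 : (1 : ℝ) ≤ n := by exact_mod_cast hn
      have h4 : (0 : ℝ) ≤ aa n := by positivity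
      nlinarith [mul_nonneg h4 (sq_nonneg (n : ℝ)), mul_le_mul_of_nonneg_right (one_le_pow₀ h3 (n := 2)) h4]
    · have h2 : 80 * (k : ℝ) ^ 2 * aa k ≤ ∑ k ∈ Finset.Icc (1 : ℕ) 5, 80 * (k : ℝ) ^ 2 * aa k :=
        single_le_sum (f := fun k : ℕ => 80 * (k : ℝ) ^ 2 * aa k) (fun k _ => by positivity)
          (Finset.mem_Icc.2 ⟨hk1, by omega⟩)
      calc 80 * (k : ℝ) ^ 2 * aa k ≤ x := by rw [hx]; linarith
        _ = x ^ 1 := (pow_one x).symm
        _ ≤ x ^ k := pow_le_pow_right₀ hx1 hk1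

lemma uu_bdd : BddBelow (Set.range fun n => uu n / n) := by
  obtain ⟨x, hx1, hx⟩ := exists_exp_bound
  refine ⟨-Real.log x, ?_⟩
  rintro _ ⟨n, rfl⟩
  dsimp only
  rcases Nat.eq_zero_or_pos n with rfl | hn
  · simp only [Nat.cast_zero, div_zero]
    have := Real.log_nonneg hx1
    linarith
  · have h1 : (0 : ℝ) < tt n := by exact_mod_cast tt_pos hn
    have h2 := Real.log_le_log h1 (hx n hn)
    rw [Real.log_pow] at h2
    have h3 : (0 : ℝ) < n := by exact_mod_cast hn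
    rw [le_div_iff₀ h3]
    unfold uu
    linarith

/-- the growth constant -/
noncomputable def lam : ℝ := Real.exp (-uu_sub.lim)

lemma lam_pos : 0 < lam := Real.exp_pos _

lemma tendsto_tt : Tendsto (fun n : ℕ => (tt n : ℝ) ^ (1 / (n : ℝ))) atTop (𝓝 lam) := by
  have h1 := uu_sub.tendsto_lim uu_bdd
  have h2 : Tendsto (fun n : ℕ => Real.exp (-(uu n / n))) atTop (𝓝 lam) :=
    (Real.continuous_exp.tendsto _).comp h1.neg
  refine h2.congr' ?_
  filter_upwards [eventually_ge_atTop 1] with n hn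
  have h3 : (0 : ℝ) < tt n := by exact_mod_cast tt_pos hn
  rw [Real.rpow_def_of_pos h3]
  congr 1
  unfold uu
  ring

lemma tt_le_lam {n : ℕ} (hn : 1 ≤ n) : (tt n : ℝ) ≤ lam ^ n := by
  have h1 := uu_sub.lim_le_div uu_bdd (n := n) (by omega)
  have h3 : (0 : ℝ) < tt n := by exact_mod_cast tt_pos hn
  have h4 : (0 : ℝ) < n := by exact_mod_cast hn
  rw [le_div_iff₀ h4, show uu n = -Real.log (tt n) from rfl] at h1
  unfold lam
  rw [← Real.exp_nat_mul, ← Real.exp_log h3]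
  apply Real.exp_le_exp.2
  have : (n : ℝ) * -uu_sub.lim = -(uu_sub.lim * n) := by ring
  rw [this]
  linarith

/-- the upper bounds -/
theorem lam_le {N : ℕ} (hN : 1 ≤ N) {x : ℝ} (hx : 0 ≤ x)
    (h : ∀ k, N ≤ k → k ≤ 5 * N → 80 * (k : ℝ) ^ 2 * aa k ≤ x ^ k) : lam ≤ x := by
  apply le_of_tendsto tendsto_tt
  filter_upwards [eventually_ge_atTop N] with n hn
  have h1 := window hN hx h n hn
  have h2 : (tt n : ℝ) ≤ aa n := by exact_mod_cast tt_le_aa n
  have h3 : (1 : ℝ) ≤ n := by exact_mod_cast hN.trans hn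
  have h4 : (0 : ℝ) ≤ aa n := by positivity
  have h5 : (tt n : ℝ) ≤ x ^ n := by
    nlinarith [mul_le_mul_of_nonneg_right (one_le_pow₀ h3 (n := 2)) h4]
  have h6 : (0 : ℝ) < n := by linarith
  calc (tt n : ℝ) ^ (1 / (n : ℝ)) ≤ (x ^ n) ^ (1 / (n : ℝ)) :=
        Real.rpow_le_rpow (by positivity) h5 (by positivity)
    _ = x := by
        rw [← Real.rpow_natCast, ← Real.rpow_mul hx, mul_one_div_cancel h6.ne', Real.rpow_one]

/-- the upper bounds in terms of the number of fixed animals -/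
theorem lam_le' {N : ℕ} (hN : 1 ≤ N) {x : ℝ} (hx : 0 ≤ x)
    (h : ∀ k, N ≤ k → k ≤ 5 * N → 80 * (k : ℝ) ^ 3 * tt k ≤ x ^ k) : lam ≤ x := by
  refine lam_le hN hx fun k hk1 hk2 => le_trans ?_ (h k hk1 hk2)
  have h1 : (aa k : ℝ) ≤ k * tt k := by exact_mod_cast aa_le k
  calc 80 * (k : ℝ) ^ 2 * aa k ≤ 80 * (k : ℝ) ^ 2 * (k * tt k) :=
        mul_le_mul_of_nonneg_left h1 (by positivity)
    _ = _ := by ring

/-- the upper bounds converge -/
theorem eventually_window {x : ℝ} (hx : lam < x) :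
    ∀ᶠ k : ℕ in atTop, 80 * (k : ℝ) ^ 2 * aa k ≤ x ^ k := by
  have hx0 : 0 < x := lam_pos.trans hx
  have h1 : Tendsto (fun n : ℕ => (n : ℝ) ^ 3 * (lam / x) ^ n) atTop (𝓝 0) := by
    apply tendsto_pow_const_mul_const_pow_of_abs_lt_one
    rw [abs_of_pos (div_pos lam_pos hx0), div_lt_one hx0]
    exact hx
  have h2 := h1.eventually (gt_mem_nhds (show (0 : ℝ) < 1 / 80 by norm_num))
  filter_upwards [h2, eventually_ge_atTop 1] with k hk hk1
  have h3 : (aa k : ℝ) ≤ k * tt k := by exact_mod_cast aa_le k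
  have h4 := tt_le_lam hk1
  have h5 : (0 : ℝ) < x ^ k := pow_pos hx0 k
  calc 80 * (k : ℝ) ^ 2 * aa k ≤ 80 * (k : ℝ) ^ 2 * (k * lam ^ k) := by
        apply mul_le_mul_of_nonneg_left _ (by positivity)
        exact h3.trans (mul_le_mul_of_nonneg_left h4 (by positivity))
    _ = 80 * ((k : ℝ) ^ 3 * (lam / x) ^ k) * x ^ k := by
        rw [div_pow]; field_simp
    _ ≤ 80 * (1 / 80) * x ^ k := by
        apply mul_le_mul_of_nonneg_right _ h5.le
        linarith
    _ = x ^ k := by ring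

end Pool.Agent.V11135.Klarner
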