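import Pool.Agent.V11135.Klarner.Comp

/-!
# The computable sequence of upper bounds
-/

set_option autoImplicit false

open Finset Filter Topology

namespace Pool.Agent.V11135.Klarner

/-- `p / 2 ^ N` is not good: it violates one of the inequalities of the window -/
def Bad (N p : ℕ) : Prop :=
  ∃ k < 5 * N + 6, N + 1 ≤ k ∧ p ^ k < 80 * k ^ 2 * ca k * 2 ^ (N * k)

lemma prim_Bad : PrimrecRel Bad := by
  have hk : Primrec fun q : (ℕ × ℕ) × ℕ => q.2 := Primrec.snd
  have hN : Primrec fun q : (ℕ × ℕ) × ℕ => q.1.1 := Primrec.fst.comp Primrec.fst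
  have hp : Primrec fun q : (ℕ × ℕ) × ℕ => q.1.2 := Primrec.snd.comp Primrec.fst
  refine ex_lt (α := ℕ × ℕ) (f := fun q => 5 * q.1 + 6)
    (p := fun q k => q.1 + 1 ≤ k ∧ q.2 ^ k < 80 * k ^ 2 * ca k * 2 ^ (q.1 * k)) ?_ ?_
  · exact Primrec.nat_add.comp (Primrec.nat_mul.comp (Primrec.const 5) Primrec.fst)
      (Primrec.const 6)
  · refine (Primrec.nat_le.comp (Primrec.succ.comp hN) hk).and (Primrec.nat_lt.comp
      (prim_pow.comp hp hk) (Primrec.nat_mul.comp (Primrec.nat_mul.comp (Primrec.nat_mul.comp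
        (Primrec.const 80) (prim_pow.comp hk (Primrec.const 2))) (prim_ca.comp hk))
        (prim_pow.comp (Primrec.const 2) (Primrec.nat_mul.comp hN hk))))

/-- a good number -/
def Big (N : ℕ) : ℕ :=
  80 * (5 * N + 5) ^ 2 * 2 ^ ((2 * (5 * N + 5) + 1) ^ 2) * 2 ^ (N * (5 * N + 5))

lemma prim_Big : Primrec Big := by
  have h5 : Primrec fun N : ℕ => 5 * N + 5 :=
    Primrec.nat_add.comp (Primrec.nat_mul.comp (Primrec.const 5) Primrec.id) (Primrec.const 5)
  exact Primrec.nat_mul.comp (Primrec.nat_mul.comp (Primrec.nat_mul.comp (Primrec.const 80)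
    (prim_pow.comp h5 (Primrec.const 2))) (prim_pow.comp (Primrec.const 2)
      (prim_pow.comp (Primrec.succ.comp (Primrec.nat_mul.comp (Primrec.const 2) h5))
        (Primrec.const 2))))
    (prim_pow.comp (Primrec.const 2) (Primrec.nat_mul.comp Primrec.id h5))

lemma ca_le (k : ℕ) : ca k ≤ 2 ^ ((2 * k + 1) ^ 2) := by
  unfold ca
  refine (List.length_filter_le _ _).trans ?_
  rw [List.length_range]

lemma not_bad_Big (N : ℕ) : ¬ Bad N (Big N) := by
  rintro ⟨k, hk, hk1, h⟩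
  have h1 : 80 * k ^ 2 * ca k * 2 ^ (N * k) ≤ Big N := by
    unfold Big
    have hk5 : k ≤ 5 * N + 5 := by omega
    gcongr
    · exact (ca_le k).trans (Nat.pow_le_pow_right (by norm_num) (by gcongr))
    · norm_num
  have h2 : Big N ≤ Big N ^ k := Nat.le_self_pow (by omega) _
  omega

lemma bad_mono {N p q : ℕ} (hpq : p ≤ q) (h : Bad N q) : Bad N p := by
  obtain ⟨k, hk, hk1, h⟩ := h
  exact ⟨k, hk, hk1, (Nat.pow_le_pow_left hpq k).trans_lt h⟩

open Classical in
/-- the least good number -/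
noncomputable def pp (N : ℕ) : ℕ := Nat.findGreatest (Bad N) (Big N) + 1

lemma prim_pp : Primrec pp := by
  classical
  exact Primrec.succ.comp (Primrec.nat_findGreatest prim_Big prim_Bad)

lemma not_bad_pp (N : ℕ) : ¬ Bad N (pp N) := by
  classical
  intro h
  have h1 : pp N ≤ Big N := by
    by_contra hcon
    push Not at hcon
    exact not_bad_Big N (bad_mono hcon.le h)
  have h2 := Nat.le_findGreatest h1 h
  unfold pp at h2
  omega

lemma pp_le {N p : ℕ} (hp : 1 ≤ p) (h : ¬ Bad N p) : pp N ≤ p := by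
  classical
  by_contra hcon
  push Not at hcon
  unfold pp at hcon
  have h1 : p ≤ Nat.findGreatest (Bad N) (Big N) := by omega
  have h2 : Bad N (Nat.findGreatest (Bad N) (Big N)) := by
    have h3 := (Nat.findGreatest_eq_iff.1 (rfl : Nat.findGreatest (Bad N) (Big N) = _)).2.1
    exact h3 (by omega)
  exact h (bad_mono h1 h2)

lemma lam_le_pp (N : ℕ) : lam ≤ (pp N : ℝ) / 2 ^ N := by
  apply lam_le (N := N + 1) (by omega) (by positivity)
  intro k hk1 hk2
  have h := not_bad_pp N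
  unfold Bad at h
  push Not at h
  have h1 := h k (by omega) hk1
  rw [ca_eq] at h1
  have h2 : (80 : ℝ) * k ^ 2 * aa k * 2 ^ (N * k) ≤ (pp N : ℝ) ^ k := by exact_mod_cast h1
  rw [div_pow, le_div_iff₀ (by positivity), ← pow_mul]
  exact h2

lemma pp_upper {x : ℝ} (hx : lam < x) : ∀ᶠ N : ℕ in atTop, (pp N : ℝ) / 2 ^ N ≤ x + 1 / 2 ^ N := by
  have hx0 : 0 < x := lam_pos.trans hx
  obtain ⟨K, hK⟩ := eventually_atTop.1 (eventually_window hx)
  filter_upwards [eventually_ge_atTop K] with N hN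
  have h2 : (0 : ℝ) < 2 ^ N := by positivity
  have h3 : pp N ≤ ⌈x * 2 ^ N⌉₊ := by
    apply pp_le
    · rw [Nat.one_le_iff_ne_zero, Ne, Nat.ceil_eq_zero]
      push Not
      positivity
    · rintro ⟨k, -, hk1, h⟩
      have h4 := hK k (by omega)
      have h5 : (x * 2 ^ N) ^ k ≤ (⌈x * 2 ^ N⌉₊ : ℝ) ^ k :=
        pow_le_pow_left₀ (by positivity) (Nat.le_ceil _) k
      rw [ca_eq] at h
      have h6 : ((⌈x * 2 ^ N⌉₊ : ℕ) : ℝ) ^ k < 80 * (k : ℝ) ^ 2 * aa k * 2 ^ (N * k) := by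
        exact_mod_cast h
      have h7 : 80 * (k : ℝ) ^ 2 * aa k * 2 ^ (N * k) ≤ (x * 2 ^ N) ^ k := by
        rw [mul_pow, ← pow_mul]
        exact mul_le_mul_of_nonneg_right h4 (by positivity)
      linarith
  have h4 : ((pp N : ℕ) : ℝ) ≤ (⌈x * 2 ^ N⌉₊ : ℝ) := by exact_mod_cast h3
  have h5 := Nat.ceil_lt_add_one (show (0 : ℝ) ≤ x * 2 ^ N by positivity)
  rw [div_le_iff₀ h2, add_mul, div_mul_cancel₀ _ h2.ne']
  linarith

/-- the numerators of the running minimum -/
noncomputable def bb : ℕ → ℕ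
  | 0 => pp 0
  | N + 1 => min (2 * bb N) (pp (N + 1))

lemma prim_bb : Primrec bb := by
  have h : Primrec₂ fun (N b : ℕ) => min (2 * b) (pp (N + 1)) :=
    Primrec.nat_min.comp (Primrec.nat_mul.comp (Primrec.const 2) Primrec.snd)
      (prim_pp.comp (Primrec.succ.comp Primrec.fst))
  refine (Primrec.nat_rec₁ (f := fun N b => min (2 * b) (pp (N + 1))) (pp 0) h).of_eq fun N => ?_
  induction N with
  | zero => rfl
  | succ N ih => simp only [bb, ← ih]

/-- the sequence -/
noncomputable def beta (n : ℕ) : ℚ := (bb n : ℚ) / 2 ^ n + 1 / (n + 1)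

lemma bb_le_pp (N : ℕ) : bb N ≤ pp N := by
  cases N with
  | zero => exact le_rfl
  | succ N => exact min_le_right _ _

lemma bb_anti (N : ℕ) : (bb (N + 1) : ℚ) / 2 ^ (N + 1) ≤ bb N / 2 ^ N := by
  have h : bb (N + 1) ≤ 2 * bb N := min_le_left _ _
  have h1 : (bb (N + 1) : ℚ) ≤ 2 * bb N := by exact_mod_cast h
  rw [div_le_div_iff₀ (by positivity) (by positivity), pow_succ]
  calc (bb (N + 1) : ℚ) * 2 ^ N ≤ 2 * bb N * 2 ^ N := mul_le_mul_of_nonneg_right h1 (by positivity)
    _ = _ := by ring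

lemma lam_le_bb (N : ℕ) : lam ≤ (bb N : ℝ) / 2 ^ N := by
  induction N with
  | zero => exact lam_le_pp 0
  | succ N ih =>
    have h1 := lam_le_pp (N + 1)
    have h2 : bb (N + 1) = min (2 * bb N) (pp (N + 1)) := rfl
    rcases min_choice (2 * bb N) (pp (N + 1)) with h | h
    · rw [h2, h]
      refine ih.trans (le_of_eq ?_)
      push_cast
      rw [pow_succ]
      field_simp
    · rw [h2, h]; exact h1

lemma beta_anti : StrictAnti beta := by
  apply strictAnti_nat_of_succ_lt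
  intro n
  unfold beta
  have h1 := bb_anti n
  have h2 : (1 : ℚ) / ((n + 1 : ℕ) + 1) < 1 / (n + 1) := by
    apply one_div_lt_one_div_of_lt (by positivity)
    push_cast
    linarith
  linarith

lemma tendsto_beta : Tendsto (fun n => (beta n : ℝ)) atTop (𝓝 lam) := by
  have hcast : ∀ n, (beta n : ℝ) = (bb n : ℝ) / 2 ^ n + 1 / (n + 1) := fun n => by
    unfold beta; push_cast; rfl
  have hz : Tendsto (fun n : ℕ => (1 : ℝ) / 2 ^ n + 1 / ((n : ℝ) + 1)) atTop (𝓝 0) := by
    have h1 : Tendsto (fun n : ℕ => (1 : ℝ) / 2 ^ n) atTop (𝓝 0) := by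
      have := tendsto_pow_atTop_nhds_zero_of_lt_one (r := (1 / 2 : ℝ)) (by norm_num) (by norm_num)
      refine this.congr fun n => ?_
      rw [div_pow, one_pow]
    have h2 := tendsto_one_div_add_atTop_nhds_zero_nat (𝕜 := ℝ)
    simpa using h1.add h2
  rw [Metric.tendsto_atTop]
  intro ε hε
  have h1 := pp_upper (x := lam + ε / 2) (by linarith)
  have h2 := hz.eventually (gt_mem_nhds (show (0 : ℝ) < ε / 2 by linarith))
  obtain ⟨K, hK⟩ := eventually_atTop.1 (h1.and h2)
  refine ⟨K, fun n hn => ?_⟩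
  obtain ⟨h3, h4⟩ := hK n hn
  have h5 := lam_le_bb n
  have h6 : (bb n : ℝ) / 2 ^ n ≤ pp n / 2 ^ n := by
    have : (bb n : ℝ) ≤ pp n := by exact_mod_cast bb_le_pp n
    exact div_le_div_of_nonneg_right this (by positivity)
  have h7 : (0 : ℝ) < 1 / ((n : ℝ) + 1) := by positivity
  rw [hcast, Real.dist_eq, abs_lt]
  constructor
  · linarith
  · linarith

lemma beta_eq (n : ℕ) : beta n = (((n + 1) * bb n + 2 ^ n : ℕ) : ℚ) / ((2 ^ n * (n + 1) : ℕ) : ℚ) := by
  unfold beta
  push_cast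
  field_simp

lemma prim_num : Primrec fun n : ℕ => (n + 1) * bb n + 2 ^ n :=
  Primrec.nat_add.comp (Primrec.nat_mul.comp Primrec.succ prim_bb)
    (prim_pow.comp (Primrec.const 2) Primrec.id)

lemma prim_den : Primrec fun n : ℕ => 2 ^ n * (n + 1) :=
  Primrec.nat_mul.comp (prim_pow.comp (Primrec.const 2) Primrec.id) Primrec.succ

/-- in every window `[N, 5 N]` some number of animals is large -/
theorem exists_large {N : ℕ} (hN : 1 ≤ N) :
    ∃ k, N ≤ k ∧ k ≤ 5 * N ∧ lam ^ k ≤ 80 * (k : ℝ) ^ 3 * tt k := by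
  by_contra hcon
  push Not at hcon
  have hne : (Finset.Icc N (5 * N)).Nonempty := ⟨N, Finset.mem_Icc.2 ⟨le_rfl, by omega⟩⟩
  set f : ℕ → ℝ := fun k => (80 * (k : ℝ) ^ 3 * tt k) ^ (1 / (k : ℝ)) with hf
  set x := (Finset.Icc N (5 * N)).sup' hne f with hx
  have hx0 : 0 ≤ x := by
    refine le_trans ?_ (Finset.le_sup' f (Finset.mem_Icc.2 ⟨le_rfl, by omega⟩ : N ∈ _))
    exact Real.rpow_nonneg (by positivity) _
  have hlt : x < lam := by
    rw [hx, Finset.sup'_lt_iff]
    intro k hk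
    rw [Finset.mem_Icc] at hk
    have hk0 : (0 : ℝ) < k := by
      have : 0 < k := by omega
      exact_mod_cast this
    have h1 := hcon k hk.1 hk.2
    calc f k < (lam ^ k) ^ (1 / (k : ℝ)) :=
          Real.rpow_lt_rpow (by positivity) h1 (by positivity)
      _ = lam := by
          rw [← Real.rpow_natCast, ← Real.rpow_mul lam_pos.le, mul_one_div_cancel hk0.ne',
            Real.rpow_one]
  have := lam_le' hN hx0 fun k hk1 hk2 => ?_
  · linarith
  · have h1 : f k ≤ x := Finset.le_sup' f (Finset.mem_Icc.2 ⟨hk1, hk2⟩)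
    have hk0 : (0 : ℝ) < k := by
      have : 0 < k := by omega
      exact_mod_cast this
    have h0 : 0 ≤ f k := Real.rpow_nonneg (by positivity) _
    calc 80 * (k : ℝ) ^ 3 * tt k = (f k) ^ k := by
          rw [hf]
          dsimp only
          rw [one_div]
          exact (Real.rpow_inv_natCast_pow (by positivity) (by omega)).symm
      _ ≤ x ^ k := pow_le_pow_left₀ h0 h1 k

end Pool.Agent.V11135.Klarner
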